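import Mathlib

/-! # Sieve definitions: the primes not dividing `m`; the remainder sum is kept fixed through the iteration -/

set_option autoImplicit false

namespace Pool.Agent.W89.Sv

open Finset

/-- the primes `< z` not dividing `m` -/
def PP (m z : ℕ) : Finset ℕ := (range z).filter (fun p => p.Prime ∧ ¬ p ∣ m)

/-- their product -/
def PZ (m z : ℕ) : ℕ := ∏ p ∈ PP m z, p

/-- `∏ (1 - 1/p)` -/
noncomputable def VZ (m z : ℕ) : ℝ := ∏ p ∈ PP m z, (1 - 1 / (p : ℝ))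

/-- Selberg's function `∑_{l ≤ ξ, l ∣ P(z)} 1/φ(l)` -/
noncomputable def GZ (m : ℕ) (ξ : ℝ) (z : ℕ) : ℝ :=
  ∑ l ∈ (PZ m z).divisors.filter (fun l : ℕ => (l : ℝ) ≤ ξ), 1 / (l.totient : ℝ)

/-- number of `i ∈ S` with `d ∣ v i` and `v i` prime to `P(z)` -/
noncomputable def sift (m : ℕ) {ι : Type} (S : Finset ι) (v : ι → ℕ) (d z : ℕ) : ℝ :=
  (S.filter (fun i => d ∣ v i ∧ (v i).Coprime (PZ m z))).card

/-- the remainder -/
noncomputable def rem {ι : Type} (S : Finset ι) (v : ι → ℕ) (X : ℝ) (d : ℕ) : ℝ :=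
  (S.filter (fun i => d ∣ v i)).card - X / d

/-- the remainder sum at level `D` for the numbers divisible by `d` -/
noncomputable def RR (m : ℕ) {ι : Type} (S : Finset ι) (v : ι → ℕ) (X : ℝ) (d z : ℕ) (D : ℝ) : ℝ :=
  ∑ l ∈ (PZ m z).divisors.filter (fun l : ℕ => (l : ℝ) ≤ D), (l.divisors.card : ℝ) ^ 2 * |rem S v X (d * l)|

lemma mem_PP {m z p : ℕ} : p ∈ PP m z ↔ p < z ∧ p.Prime ∧ ¬ p ∣ m := by
  unfold PP
  rw [mem_filter, mem_range]

lemma PP_succ (m z : ℕ) : PP m (z + 1) = if z.Prime ∧ ¬ z ∣ m then insert z (PP m z) else PP m z := by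
  ext p
  split_ifs with h
  · rw [mem_insert, mem_PP, mem_PP]
    constructor
    · rintro ⟨h1, h2⟩
      rcases Nat.lt_succ_iff_lt_or_eq.1 h1 with h3 | h3
      · exact Or.inr ⟨h3, h2⟩
      · exact Or.inl h3
    · rintro (h1 | h1)
      · subst h1
        exact ⟨Nat.lt_succ_self _, h⟩
      · exact ⟨by omega, h1.2⟩
  · rw [mem_PP, mem_PP]
    constructor
    · rintro ⟨h1, h2⟩
      refine ⟨?_, h2⟩
      rcases Nat.lt_succ_iff_lt_or_eq.1 h1 with h3 | h3
      · exact h3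
      · subst h3
        exact absurd h2 h
    · rintro ⟨h1, h2⟩
      exact ⟨by omega, h2⟩

lemma not_mem_PP (m z : ℕ) : z ∉ PP m z := by
  rw [mem_PP]
  intro h
  omega

lemma PP_prime {m z p : ℕ} (hp : p ∈ PP m z) : p.Prime := (mem_PP.1 hp).2.1

lemma PP_mono {m w z : ℕ} (h : w ≤ z) : PP m w ⊆ PP m z := by
  intro p hp
  rw [mem_PP] at hp ⊢
  exact ⟨hp.1.trans_le h, hp.2⟩

lemma PZ_succ_of {m z : ℕ} (h : z.Prime ∧ ¬ z ∣ m) : PZ m (z + 1) = z * PZ m z := by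
  rw [PZ, PP_succ, if_pos h, prod_insert (not_mem_PP m z), PZ]

lemma PZ_succ_of_not {m z : ℕ} (h : ¬ (z.Prime ∧ ¬ z ∣ m)) : PZ m (z + 1) = PZ m z := by
  rw [PZ, PP_succ, if_neg h, PZ]

lemma PZ_dvd {m w z : ℕ} (h : w ≤ z) : PZ m w ∣ PZ m z :=
  prod_dvd_prod_of_subset _ _ _ (PP_mono h)

lemma prime_dvd_PZ {m z q : ℕ} (hq : q.Prime) (h : q ∣ PZ m z) : q < z ∧ ¬ q ∣ m := by
  rw [PZ] at h
  obtain ⟨p, hp, hqp⟩ := (hq.prime.dvd_finsetProd_iff _).1 h
  rw [mem_PP] at hp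
  rw [(Nat.prime_dvd_prime_iff_eq hq hp.2.1).1 hqp]
  exact ⟨hp.1, hp.2.2⟩

lemma dvd_PZ {m z q : ℕ} (hq : q.Prime) (h : q < z) (hm : ¬ q ∣ m) : q ∣ PZ m z :=
  dvd_prod_of_mem (fun p => p) (mem_PP.2 ⟨h, hq, hm⟩)

lemma coprime_PZ {m p : ℕ} (hp : p.Prime) : p.Coprime (PZ m p) := by
  rw [hp.coprime_iff_not_dvd]
  intro h
  exact absurd (prime_dvd_PZ hp h).1 (lt_irrefl _)

lemma PZ_sqf (m z : ℕ) : Squarefree (PZ m z) := by
  unfold PZ
  refine Finset.squarefree_prod_of_pairwise_isCoprime ?_ ?_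
  · intro a ha b hb hab
    exact Nat.coprime_iff_isRelPrime.1
      ((Nat.coprime_primes (PP_prime (mem_coe.1 ha)) (PP_prime (mem_coe.1 hb))).2 hab)
  · intro a ha
    exact (PP_prime ha).prime.squarefree

lemma PZ_ne_zero (m z : ℕ) : PZ m z ≠ 0 := (PZ_sqf m z).ne_zero

lemma PZ_primeFactors (m z : ℕ) : (PZ m z).primeFactors = PP m z :=
  Nat.primeFactors_prod fun _ hp => PP_prime hp

theorem VZ_pos (m z : ℕ) : 0 < VZ m z := by
  unfold VZ
  apply prod_pos
  intro p hp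
  have hp2 : (2 : ℝ) ≤ p := by exact_mod_cast (PP_prime hp).two_le
  have : 1 / (p : ℝ) ≤ 1 / 2 := by gcongr
  linarith

theorem VZ_succ (m z : ℕ) : VZ m (z + 1) =
    if z.Prime ∧ ¬ z ∣ m then VZ m z * (1 - 1 / (z : ℝ)) else VZ m z := by
  unfold VZ
  rw [PP_succ]
  split_ifs with h
  · rw [prod_insert (not_mem_PP m z), mul_comm]
  · rfl

/-- the primes in `[w, z)` -/
lemma V_tele (m : ℕ) {w z : ℕ} (h : w ≤ z) :
    ∑ p ∈ (PP m z).filter (fun p => w ≤ p), VZ m p / p = VZ m w - VZ m z := by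
  induction z, h using Nat.le_induction with
  | base =>
    rw [sub_self]
    apply sum_eq_zero
    intro p hp
    rw [mem_filter, mem_PP] at hp
    omega
  | succ z hz ih =>
    rw [PP_succ, VZ_succ]
    by_cases h : z.Prime ∧ ¬ z ∣ m
    · rw [if_pos h, if_pos h, filter_insert, if_pos hz, sum_insert, ih]
      · have : (z : ℝ) ≠ 0 := by exact_mod_cast h.1.ne_zero
        field_simp
        ring
      · rw [mem_filter]
        exact fun h => not_mem_PP m z h.1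
    · rw [if_neg h, if_neg h, ih]

lemma VZ_tele (m z : ℕ) : ∑ p ∈ PP m z, VZ m p / p = 1 - VZ m z := by
  have h := V_tele m (Nat.zero_le z)
  have h2 : (PP m z).filter (fun p => 0 ≤ p) = PP m z := filter_true_of_mem fun _ _ => Nat.zero_le _
  have h3 : VZ m 0 = 1 := by
    unfold VZ PP
    simp
  rw [h2, h3] at h
  exact h

section
variable (m : ℕ) {ι : Type} (S : Finset ι) (v : ι → ℕ) (X : ℝ)

lemma sift_nonneg (d z : ℕ) : 0 ≤ sift m S v d z := Nat.cast_nonneg _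

lemma RR_nonneg (d z : ℕ) (D : ℝ) : 0 ≤ RR m S v X d z D :=
  sum_nonneg fun _ _ => by positivity

lemma RR_mono (d : ℕ) {w z : ℕ} {D D' : ℝ} (h : w ≤ z) (hD : D ≤ D') : RR m S v X d w D ≤ RR m S v X d z D' := by
  unfold RR
  apply sum_le_sum_of_subset_of_nonneg
  · intro l hl
    rw [mem_filter] at hl ⊢
    exact ⟨Nat.divisors_subset_of_dvd (PZ_ne_zero m z) (PZ_dvd h) hl.1, hl.2.trans hD⟩
  · intro _ _ _
    positivity

lemma sift_anti (d : ℕ) {w z : ℕ} (h : w ≤ z) : sift m S v d z ≤ sift m S v d w := by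
  unfold sift
  have : (S.filter (fun i => d ∣ v i ∧ (v i).Coprime (PZ m z))) ⊆
      (S.filter (fun i => d ∣ v i ∧ (v i).Coprime (PZ m w))) := by
    intro i hi
    rw [mem_filter] at hi ⊢
    exact ⟨hi.1, hi.2.1, Nat.Coprime.coprime_dvd_right (PZ_dvd h) hi.2.2⟩
  exact_mod_cast card_le_card this

lemma sift_step {d z : ℕ} (hd : z.Prime → ¬ z ∣ m → d.Coprime z) :
    sift m S v d z = sift m S v d (z + 1) + if z.Prime ∧ ¬ z ∣ m then sift m S v (d * z) z else 0 := by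
  classical
  split_ifs with h
  · unfold sift
    rw [PZ_succ_of h, ← Nat.cast_add]
    congr 1
    have hdz := hd h.1 h.2
    have h1 : (S.filter (fun i => d ∣ v i ∧ (v i).Coprime (PZ m z))) =
        (S.filter (fun i => d ∣ v i ∧ (v i).Coprime (z * PZ m z))) ∪
        (S.filter (fun i => d * z ∣ v i ∧ (v i).Coprime (PZ m z))) := by
      ext i
      simp only [mem_filter, mem_union]
      rw [Nat.coprime_mul_iff_right]
      constructor
      · rintro ⟨h2, h2', h3⟩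
        by_cases h4 : z ∣ v i
        · exact Or.inr ⟨h2, hdz.mul_dvd_of_dvd_of_dvd h2' h4, h3⟩
        · exact Or.inl ⟨h2, h2', ((h.1.coprime_iff_not_dvd).2 h4).symm, h3⟩
      · rintro (⟨h2, h2', h3, h4⟩ | ⟨h2, h3, h4⟩)
        · exact ⟨h2, h2', h4⟩
        · exact ⟨h2, (dvd_mul_right d z).trans h3, h4⟩
    rw [h1, card_union_of_disjoint]
    rw [disjoint_left]
    intro i hi hi'
    simp only [mem_filter] at hi hi'
    rw [Nat.coprime_mul_iff_right] at hi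
    exact (h.1.coprime_iff_not_dvd).1 hi.2.2.1.symm ((dvd_mul_left z d).trans hi'.2.1)
  · unfold sift
    rw [PZ_succ_of_not h, add_zero]

/-- Buchstab's identity -/
lemma buchstab {d : ℕ} {w z : ℕ} (hwz : w ≤ z) (hd : d.Coprime (PZ m z)) :
    sift m S v d z = sift m S v d w - ∑ p ∈ (PP m z).filter (fun p => w ≤ p), sift m S v (d * p) p := by
  induction z, hwz using Nat.le_induction with
  | base =>
    have : (PP m w).filter (fun p => w ≤ p) = ∅ := by
      apply filter_eq_empty_iff.2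
      intro p hp
      rw [mem_PP] at hp
      omega
    rw [this, sum_empty, sub_zero]
  | succ z hz ih =>
    have hd' : d.Coprime (PZ m z) := Nat.Coprime.coprime_dvd_right (PZ_dvd (Nat.le_succ z)) hd
    have h1 := sift_step m S v (d := d) (z := z) (by
      intro h1 h2
      exact Nat.Coprime.coprime_dvd_right (dvd_PZ h1 (Nat.lt_succ_self z) h2) hd)
    rw [PP_succ]
    split_ifs at h1 ⊢ with h
    · rw [filter_insert, if_pos hz, sum_insert]
      · linarith [ih hd']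
      · rw [mem_filter]
        exact fun h => not_mem_PP m z h.1
    · linarith [ih hd']

/-- the remainders in a Buchstab step -/
lemma RR_buch {d : ℕ} {w z : ℕ} {D : ℝ} (hwz : w ≤ z) :
    RR m S v X d w D + ∑ p ∈ (PP m z).filter (fun p => w ≤ p), RR m S v X (d * p) p (D / p) ≤
      RR m S v X d z D := by
  set F : ℕ → ℝ := fun q => (q.divisors.card : ℝ) ^ 2 * |rem S v X (d * q)| with hF
  have hF0 : ∀ q, 0 ≤ F q := fun q => by
    rw [hF]
    positivity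
  set T : Finset (Σ _ : ℕ, ℕ) := ((PP m z).filter (fun p => w ≤ p)).sigma
    (fun p => (PZ m p).divisors.filter (fun l : ℕ => (l : ℝ) ≤ D / p)) with hT
  have hmem : ∀ x ∈ T, ((x.1 < z ∧ x.1.Prime ∧ ¬ x.1 ∣ m) ∧ w ≤ x.1) ∧ x.2 ∣ PZ m x.1 ∧ PZ m x.1 ≠ 0 ∧
      (x.2 : ℝ) ≤ D / x.1 := by
    intro x hx
    rw [hT, mem_sigma, mem_filter, mem_filter, Nat.mem_divisors, mem_PP] at hx
    exact ⟨hx.1, hx.2.1.1, hx.2.1.2, hx.2.2⟩
  have hinj : Set.InjOn (fun x : Σ _ : ℕ, ℕ => x.1 * x.2) (T : Set (Σ _ : ℕ, ℕ)) := by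
    rintro ⟨p, l⟩ hx ⟨p', l'⟩ hx' heq
    have h1 := hmem _ hx
    have h2 := hmem _ hx'
    simp only at h1 h2 heq
    have key : ∀ p l p' l' : ℕ, p.Prime → p'.Prime → l ∣ PZ m p → p * l = p' * l' → p' ≤ p := by
      intro p l p' l' hp hp' hl h
      have h3 : p' ∣ p * l := h ▸ dvd_mul_right _ _
      rcases (hp'.dvd_mul).1 h3 with h4 | h4
      · rw [(Nat.prime_dvd_prime_iff_eq hp' hp).1 h4]
      · exact (prime_dvd_PZ hp' (h4.trans hl)).1.le
    have h3 : p' ≤ p := key p l p' l' h1.1.1.2.1 h2.1.1.2.1 h1.2.1 heq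
    have h4 : p ≤ p' := key p' l' p l h2.1.1.2.1 h1.1.1.2.1 h2.2.1 heq.symm
    have h5 : p = p' := le_antisymm h4 h3
    subst h5
    have h6 : l = l' := Nat.eq_of_mul_eq_mul_left h1.1.1.2.1.pos heq
    subst h6
    rfl
  have h1 : ∑ p ∈ (PP m z).filter (fun p => w ≤ p), RR m S v X (d * p) p (D / p) ≤ ∑ x ∈ T, F (x.1 * x.2) := by
    rw [hT, sum_sigma]
    apply sum_le_sum
    intro p hp
    unfold RR
    apply sum_le_sum
    intro l hl
    rw [mem_filter, Nat.mem_divisors] at hl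
    rw [mem_filter, mem_PP] at hp
    simp only [hF]
    rw [mul_assoc]
    apply mul_le_mul_of_nonneg_right _ (abs_nonneg _)
    have hl0 : l ≠ 0 := by
      rintro rfl
      exact hl.1.2 (Nat.eq_zero_of_zero_dvd hl.1.1)
    have h2 : l.divisors ⊆ (p * l).divisors :=
      Nat.divisors_subset_of_dvd (mul_ne_zero hp.1.2.1.ne_zero hl0) (dvd_mul_left _ _)
    have h3 : (l.divisors.card : ℝ) ≤ ((p * l).divisors.card : ℝ) := by
      exact_mod_cast card_le_card h2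
    gcongr
  have h2 : ∑ x ∈ T, F (x.1 * x.2) = ∑ q ∈ T.image (fun x : Σ _ : ℕ, ℕ => x.1 * x.2), F q := by
    rw [sum_image]
    exact hinj
  have h3 : RR m S v X d w D = ∑ q ∈ (PZ m w).divisors.filter (fun l : ℕ => (l : ℝ) ≤ D), F q := rfl
  have h4 : Disjoint ((PZ m w).divisors.filter (fun l : ℕ => (l : ℝ) ≤ D))
      (T.image (fun x : Σ _ : ℕ, ℕ => x.1 * x.2)) := by
    rw [disjoint_left]
    intro q hq hq'
    rw [mem_filter, Nat.mem_divisors] at hq
    rw [mem_image] at hq'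
    obtain ⟨x, hx, rfl⟩ := hq'
    have h5 := hmem x hx
    have h6 := (prime_dvd_PZ h5.1.1.2.1 ((dvd_mul_right _ _).trans hq.1.1)).1
    omega
  have h5 : (PZ m w).divisors.filter (fun l : ℕ => (l : ℝ) ≤ D) ∪ T.image (fun x : Σ _ : ℕ, ℕ => x.1 * x.2) ⊆
      (PZ m z).divisors.filter (fun l : ℕ => (l : ℝ) ≤ D) := by
    intro q hq
    rw [mem_union, mem_filter, mem_image] at hq
    rw [mem_filter]
    rcases hq with ⟨h6, h7⟩ | ⟨x, hx, rfl⟩
    · exact ⟨Nat.divisors_subset_of_dvd (PZ_ne_zero m z) (PZ_dvd hwz) h6, h7⟩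
    · have h6 := hmem x hx
      have hx0 : (0 : ℝ) < x.1 := by exact_mod_cast h6.1.1.2.1.pos
      constructor
      · rw [Nat.mem_divisors]
        refine ⟨?_, PZ_ne_zero m z⟩
        have hcop : x.1.Coprime x.2 := Nat.Coprime.coprime_dvd_right h6.2.1 (coprime_PZ h6.1.1.2.1)
        exact hcop.mul_dvd_of_dvd_of_dvd (dvd_PZ h6.1.1.2.1 h6.1.1.1 h6.1.1.2.2)
          (h6.2.1.trans (PZ_dvd h6.1.1.1.le))
      · have h7 := h6.2.2.2
        rw [le_div_iff₀ hx0] at h7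
        push_cast
        linarith
  rw [h3]
  calc _ ≤ ∑ q ∈ (PZ m w).divisors.filter (fun l : ℕ => (l : ℝ) ≤ D), F q +
        ∑ q ∈ T.image (fun x : Σ _ : ℕ, ℕ => x.1 * x.2), F q := by
        rw [← h2]; linarith
    _ = ∑ q ∈ (PZ m w).divisors.filter (fun l : ℕ => (l : ℝ) ≤ D) ∪
          T.image (fun x : Σ _ : ℕ, ℕ => x.1 * x.2), F q := (sum_union h4).symm
    _ ≤ ∑ q ∈ (PZ m z).divisors.filter (fun l : ℕ => (l : ℝ) ≤ D), F q :=
        sum_le_sum_of_subset_of_nonneg h5 fun q _ _ => hF0 q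
    _ = RR m S v X d z D := rfl

end

end Pool.Agent.W89.Sv
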