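import Mathlib
import Pool.Agent.W89.Sv.Defs
import Pool.Agent.H305R2.MertensE
import Pool.Agent.H305R2.MertensM

/-! Mertens for the primes not dividing `m` (adapted from `Pool.Agent.H503R2.PalS4`). -/

set_option autoImplicit false

namespace Pool.Agent.W89.Sv

open Finset Filter Topology

/-- the product over the primes dividing `m` -/
noncomputable def cM (m : ℕ) : ℝ := ∏ p ∈ m.primeFactors, (1 - 1 / (p : ℝ))

lemma cM_pos (m : ℕ) : 0 < cM m := by
  unfold cM
  apply prod_pos
  intro p hp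
  have hp2 : (2 : ℝ) ≤ p := by exact_mod_cast (Nat.prime_of_mem_primeFactors hp).two_le
  have : 1 / (p : ℝ) ≤ 1 / 2 := by gcongr
  linarith

theorem prod_all (m : ℕ) (hm : m ≠ 0) (N : ℕ) (hN : m ≤ N) :
    ∏ p ∈ (Icc 1 N).filter Nat.Prime, (1 - (p : ℝ)⁻¹)⁻¹ = (cM m)⁻¹ * (VZ m (N + 1))⁻¹ := by
  have h1 : (Icc 1 N).filter Nat.Prime = m.primeFactors ∪ PP m (N + 1) := by
    ext p
    simp only [mem_filter, mem_Icc, mem_union, mem_PP, Nat.mem_primeFactors]
    constructor
    · rintro ⟨⟨h1, h2⟩, hp⟩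
      by_cases h : p ∣ m
      · exact Or.inl ⟨hp, h, hm⟩
      · exact Or.inr ⟨by omega, hp, h⟩
    · rintro (⟨hp, h, _⟩ | ⟨h1, hp, h2⟩)
      · exact ⟨⟨hp.one_le, (Nat.le_of_dvd (Nat.pos_of_ne_zero hm) h).trans hN⟩, hp⟩
      · exact ⟨⟨hp.one_le, by omega⟩, hp⟩
  have hdis : Disjoint m.primeFactors (PP m (N + 1)) := by
    rw [disjoint_left]
    intro p hp hp'
    exact (mem_PP.1 hp').2.2 (Nat.dvd_of_mem_primeFactors hp)
  rw [h1, prod_union hdis]
  unfold VZ cM
  rw [← prod_inv_distrib, ← prod_inv_distrib]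
  simp only [one_div]

/-- the limit of `VZ m z * log z` -/
noncomputable def cV (m : ℕ) : ℝ := (cM m)⁻¹ * Real.exp (-Real.eulerMascheroniConstant)

lemma cV_pos (m : ℕ) : 0 < cV m := mul_pos (inv_pos.2 (cM_pos m)) (Real.exp_pos _)

theorem V_lim (m : ℕ) (hm : m ≠ 0) : Tendsto (fun z : ℕ => VZ m z * Real.log z) atTop (𝓝 (cV m)) := by
  rw [← tendsto_add_atTop_iff_nat 1]
  have h1 := Pool.Agent.H305R2.mertens_three
  have h2 : Tendsto (fun N : ℕ => Real.log ((N + 1 : ℕ) : ℝ) / Real.log N) atTop (𝓝 1) := by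
    have hup : Tendsto (fun N : ℕ => 1 + 1 / Real.log N) atTop (𝓝 1) := by
      have : Tendsto (fun N : ℕ => 1 / Real.log (N : ℝ)) atTop (𝓝 0) :=
        tendsto_const_nhds.div_atTop (Real.tendsto_log_atTop.comp tendsto_natCast_atTop_atTop)
      simpa using this.const_add 1
    refine tendsto_of_tendsto_of_tendsto_of_le_of_le' tendsto_const_nhds hup ?_ ?_
    · filter_upwards [eventually_ge_atTop 2] with N hN
      have hN' : (1 : ℝ) < N := by exact_mod_cast (by omega : 1 < N)
      rw [le_div_iff₀ (Real.log_pos hN'), one_mul]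
      exact Real.log_le_log (by linarith) (by push_cast; linarith)
    · filter_upwards [eventually_ge_atTop 2] with N hN
      have hN' : (1 : ℝ) < N := by exact_mod_cast (by omega : 1 < N)
      have hl := Real.log_pos hN'
      rw [div_le_iff₀ hl]
      have h3 : Real.log ((N + 1 : ℕ) : ℝ) ≤ Real.log N + 1 := by
        have h4 : Real.log ((N + 1 : ℕ) : ℝ) ≤ Real.log (2 * N) :=
          Real.log_le_log (by positivity) (by push_cast; linarith)
        rw [Real.log_mul (by norm_num) (by linarith)] at h4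
        have := Real.log_two_lt_d9
        linarith
      calc Real.log ((N + 1 : ℕ) : ℝ) ≤ Real.log N + 1 := h3
        _ = (1 + 1 / Real.log N) * Real.log N := by field_simp
  have h3 := (h1.inv₀ (Real.exp_pos _).ne').mul h2
  rw [← Real.exp_neg, mul_one] at h3
  have h4 := h3.const_mul (cM m)⁻¹
  refine h4.congr' ?_
  filter_upwards [eventually_ge_atTop m, eventually_ge_atTop 2] with N hN hN2
  have hN' : (1 : ℝ) < N := by exact_mod_cast (by omega : 1 < N)
  have hl := Real.log_pos hN'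
  rw [prod_all m hm N hN]
  have hV := (VZ_pos m (N + 1)).ne'
  have hc := (cM_pos m).ne'
  field_simp

/-- largest natural number `< D ^ b` -/
noncomputable def NN (b D : ℝ) : ℕ := ⌈D ^ b⌉₊ - 1

theorem NN_bounds (b : ℝ) (hb : 0 < b) : ∀ᶠ D : ℝ in atTop, D ^ b / 2 ≤ (NN b D : ℝ) ∧
    (NN b D : ℝ) ≤ D ^ b ∧ 2 ≤ D ^ b ∧ 1 < D := by
  filter_upwards [(tendsto_rpow_atTop hb).eventually_ge_atTop 2, eventually_gt_atTop 1] with D hD hD1
  have h1 : D ^ b ≤ ⌈D ^ b⌉₊ := Nat.le_ceil _
  have h2 : (⌈D ^ b⌉₊ : ℝ) < D ^ b + 1 := Nat.ceil_lt_add_one (by linarith)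
  have h3 : 1 ≤ ⌈D ^ b⌉₊ := by
    rw [Nat.one_le_iff_ne_zero]
    intro h
    rw [h] at h1
    simp at h1
    linarith
  have h4 : (NN b D : ℝ) = (⌈D ^ b⌉₊ : ℝ) - 1 := by
    unfold NN
    push_cast [Nat.cast_sub h3]
    ring
  rw [h4]
  refine ⟨by linarith, by linarith, hD, hD1⟩

theorem NN_tendsto (b : ℝ) (hb : 0 < b) : Tendsto (NN b) atTop atTop := by
  rw [← tendsto_natCast_atTop_iff (R := ℝ)]
  apply tendsto_atTop_mono' atTop (f₁ := fun D : ℝ => D ^ b / 2)
  · filter_upwards [NN_bounds b hb] with D hD using hD.1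
  · exact (tendsto_rpow_atTop hb).atTop_div_const (by norm_num)

theorem NN_log (b : ℝ) (hb : 0 < b) :
    Tendsto (fun D : ℝ => Real.log (NN b D) / Real.log D) atTop (𝓝 b) := by
  have hlo : Tendsto (fun D : ℝ => b - Real.log 2 / Real.log D) atTop (𝓝 b) := by
    have : Tendsto (fun D : ℝ => Real.log 2 / Real.log D) atTop (𝓝 0) :=
      tendsto_const_nhds.div_atTop Real.tendsto_log_atTop
    simpa using this.const_sub b
  refine tendsto_of_tendsto_of_tendsto_of_le_of_le' hlo tendsto_const_nhds ?_ ?_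
  · filter_upwards [NN_bounds b hb] with D ⟨h1, h2, h3, h4⟩
    have hl := Real.log_pos h4
    have h5 := Real.log_le_log (by positivity) h1
    rw [Real.log_div (by positivity) (by norm_num), Real.log_rpow (by linarith)] at h5
    rw [le_div_iff₀ hl, sub_mul, div_mul_cancel₀ _ hl.ne']
    exact h5
  · filter_upwards [NN_bounds b hb] with D ⟨h1, h2, h3, h4⟩
    have hl := Real.log_pos h4
    have h0 : (0 : ℝ) < NN b D := lt_of_lt_of_le (by positivity) h1
    have h5 := Real.log_le_log h0 h2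
    rw [Real.log_rpow (by linarith)] at h5
    rw [div_le_iff₀ hl]
    exact h5

theorem mem_NN (b D : ℝ) (p : ℕ) (hp : 1 ≤ p) : p ≤ NN b D ↔ (p : ℝ) < D ^ b := by
  unfold NN
  rw [← Nat.lt_ceil]
  omega

theorem mertens_int (m : ℕ) (hm : m ≠ 0) (a b τ : ℝ) (ha : 0 < a) (hab : a < b) (hτ : 0 < τ) :
    Tendsto (fun D : ℝ => ∑ p ∈ (PP m ⌈D ^ b⌉₊).filter (fun p : ℕ => D ^ a ≤ p),
      (1 - Real.log p / (τ * Real.log D)) / p) atTop (𝓝 (Real.log (b / a) - (b - a) / τ)) := by
  have hb : 0 < b := by linarith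
  obtain ⟨M, hM⟩ := Pool.Agent.H305R2.mertens_inv_tendsto
  obtain ⟨C, hC⟩ := Pool.Agent.Helper601.Mertens.mertens_log
  set S1 : ℕ → ℝ := fun N => ∑ p ∈ (Finset.Icc 1 N).filter Nat.Prime, (1 : ℝ) / p with hS1
  set S2 : ℕ → ℝ := fun N => ∑ p ∈ (Finset.Icc 1 N).filter Nat.Prime, Real.log p / p with hS2
  -- first part
  have hA : Tendsto (fun D : ℝ => S1 (NN b D) - S1 (NN a D)) atTop (𝓝 (Real.log (b / a))) := by
    have h1 := (hM.comp (NN_tendsto b hb)).sub (hM.comp (NN_tendsto a ha))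
    rw [sub_self] at h1
    have h2 : Tendsto (fun D : ℝ => Real.log (Real.log (NN b D)) - Real.log (Real.log (NN a D)))
        atTop (𝓝 (Real.log (b / a))) := by
      have h3 := (NN_log b hb).div (NN_log a ha) ha.ne'
      have h4 := (Real.continuousAt_log (div_pos hb ha).ne').tendsto.comp h3
      refine h4.congr' ?_
      filter_upwards [NN_bounds b hb, NN_bounds a ha,
        (NN_tendsto b hb).eventually_ge_atTop 2, (NN_tendsto a ha).eventually_ge_atTop 2]
        with D h5 h6 h7 h8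
      have hl := Real.log_pos h5.2.2.2
      have h9 : 0 < Real.log (NN b D) := Real.log_pos (by exact_mod_cast (by omega : 1 < NN b D))
      have h10 : 0 < Real.log (NN a D) := Real.log_pos (by exact_mod_cast (by omega : 1 < NN a D))
      simp only [Function.comp, Pi.div_apply]
      rw [div_div_div_cancel_right₀ hl.ne', Real.log_div h9.ne' h10.ne']
    have h5 := h1.add h2
    rw [zero_add] at h5
    refine h5.congr fun D => ?_
    simp only [Function.comp, hS1]
    ring
  -- second part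
  have hB : Tendsto (fun D : ℝ => (S2 (NN b D) - S2 (NN a D)) / Real.log D) atTop (𝓝 (b - a)) := by
    have h1 : ∀ c : ℝ, 0 < c → Tendsto (fun D : ℝ => S2 (NN c D) / Real.log D) atTop (𝓝 c) := by
      intro c hc
      have h2 : Tendsto (fun D : ℝ => (S2 (NN c D) - Real.log (NN c D)) / Real.log D) atTop
          (𝓝 0) := by
        have h3 : Tendsto (fun D : ℝ => C / Real.log D) atTop (𝓝 0) :=
          tendsto_const_nhds.div_atTop Real.tendsto_log_atTop
        rw [tendsto_zero_iff_abs_tendsto_zero]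
        refine squeeze_zero' (Eventually.of_forall fun D => abs_nonneg _) ?_ h3
        filter_upwards [NN_bounds c hc, (NN_tendsto c hc).eventually_ge_atTop 1] with D h4 h5
        have hl := Real.log_pos h4.2.2.2
        simp only [Function.comp]
        rw [abs_div, abs_of_pos hl]
        exact div_le_div_of_nonneg_right (hC _ h5) hl.le
      have h6 := h2.add (NN_log c hc)
      rw [zero_add] at h6
      refine h6.congr fun D => ?_
      rw [← add_div]
      congr 1
      ring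
    refine ((h1 b hb).sub (h1 a ha)).congr fun D => ?_
    rw [← sub_div]
  have hmain := hA.sub (hB.mul_const (1 / τ))
  have e1 : Real.log (b / a) - (b - a) * (1 / τ) = Real.log (b / a) - (b - a) / τ := by ring
  rw [e1] at hmain
  refine hmain.congr' ?_
  filter_upwards [NN_bounds b hb, NN_bounds a ha, (NN_tendsto a ha).eventually_ge_atTop m]
    with D h5 h6 h7
  have hD1 : 1 < D := h5.2.2.2
  have hl := Real.log_pos hD1
  have hset : (PP m ⌈D ^ b⌉₊).filter (fun p : ℕ => D ^ a ≤ p) =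
      ((Finset.Icc 1 (NN b D)).filter Nat.Prime) \ ((Finset.Icc 1 (NN a D)).filter Nat.Prime) := by
    ext p
    simp only [Finset.mem_filter, Finset.mem_sdiff, mem_PP, Finset.mem_Icc, not_and]
    constructor
    · rintro ⟨⟨h1, hp, h2⟩, h3⟩
      rw [Nat.lt_ceil] at h1
      refine ⟨⟨⟨hp.one_le, (mem_NN b D p hp.one_le).2 h1⟩, hp⟩, ?_⟩
      rintro ⟨-, h4⟩
      rw [mem_NN a D p hp.one_le] at h4
      exact absurd h3 (not_le.2 h4)
    · rintro ⟨⟨⟨h1, h2⟩, hp⟩, h3⟩
      have h4 : ¬ (p ≤ NN a D) := fun h => h3 ⟨h1, h⟩ hp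
      refine ⟨⟨?_, hp, ?_⟩, ?_⟩
      · rw [Nat.lt_ceil]
        exact (mem_NN b D p h1).1 h2
      · intro h
        have := Nat.le_of_dvd (Nat.pos_of_ne_zero hm) h
        omega
      · rw [mem_NN a D p h1] at h4
        linarith
  have hsub : (Finset.Icc 1 (NN a D)).filter Nat.Prime ⊆ (Finset.Icc 1 (NN b D)).filter Nat.Prime := by
    intro p hp
    rw [mem_filter, mem_Icc] at hp ⊢
    refine ⟨⟨hp.1.1, ?_⟩, hp.2⟩
    rw [mem_NN b D p hp.1.1]
    have h8 := (mem_NN a D p hp.1.1).1 hp.1.2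
    exact h8.trans_le (Real.rpow_le_rpow_of_exponent_le hD1.le hab.le)
  have hsum : ∀ N : ℕ, ∑ p ∈ (Finset.Icc 1 N).filter Nat.Prime,
      (1 - Real.log p / (τ * Real.log D)) / p = S1 N - 1 / (τ * Real.log D) * S2 N := by
    intro N
    simp only [hS1, hS2]
    rw [mul_sum, ← sum_sub_distrib]
    apply sum_congr rfl
    intro p hp
    rw [mem_filter, mem_Icc] at hp
    have : (p : ℝ) ≠ 0 := by exact_mod_cast hp.2.ne_zero
    field_simp
  rw [hset, sum_sdiff_eq_sub hsub, hsum, hsum]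
  field_simp
  ring

end Pool.Agent.W89.Sv
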