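import Mathlib
import Pool.Agent.W89.Sv.Defs
import Pool.Agent.Helper923.HMertens

/-! Rankin's trick for Selberg's function `GZ` (task S2 of helper476). -/

set_option autoImplicit false

namespace Pool.Agent.W89.Sv

open Finset Filter Topology

/-- `l ^ s / φ(l)` -/
noncomputable def gA (s : ℝ) : ArithmeticFunction ℝ :=
  ⟨fun l => (l : ℝ) ^ s / (l.totient : ℝ), by simp⟩

theorem gA_apply (s : ℝ) (l : ℕ) : gA s l = (l : ℝ) ^ s / (l.totient : ℝ) := rfl

theorem gA_mult (s : ℝ) : (gA s).IsMultiplicative := by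
  rw [ArithmeticFunction.IsMultiplicative.iff_ne_zero]
  constructor
  · simp [gA_apply]
  · intro a n hm hn hmn
    rw [gA_apply, gA_apply, gA_apply, Nat.totient_mul hmn]
    push_cast
    rw [Real.mul_rpow (by positivity) (by positivity), mul_div_mul_comm]

theorem sum_gA (m : ℕ) (s : ℝ) (z : ℕ) :
    ∑ l ∈ (PZ m z).divisors, (l : ℝ) ^ s / (l.totient : ℝ) = ∏ p ∈ PP m z, (1 + (p : ℝ) ^ s / ((p : ℝ) - 1)) := by
  have h := (gA_mult s).prodPrimeFactors_one_add_of_squarefree (PZ_sqf m z)
  rw [PZ_primeFactors] at h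
  have h2 : ∑ l ∈ (PZ m z).divisors, (l : ℝ) ^ s / (l.totient : ℝ) = ∑ l ∈ (PZ m z).divisors, gA s l := rfl
  rw [h2, ← h]
  apply prod_congr rfl
  intro p hp
  have hpp := PP_prime hp
  rw [gA_apply, Nat.totient_prime hpp, Nat.cast_sub hpp.one_le, Nat.cast_one]

theorem sum_inv_totient (m z : ℕ) : ∑ l ∈ (PZ m z).divisors, 1 / (l.totient : ℝ) = (VZ m z)⁻¹ := by
  have h := sum_gA m 0 z
  simp only [Real.rpow_zero] at h
  rw [h, VZ, ← prod_inv_distrib]
  apply prod_congr rfl
  intro p hp
  have hpp := PP_prime hp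
  have hp2 : (2 : ℝ) ≤ p := by exact_mod_cast hpp.two_le
  have h1 : (p : ℝ) - 1 ≠ 0 := by linarith
  have h0 : (p : ℝ) ≠ 0 := by linarith
  field_simp
  ring

/-- S2 (file S2.lean) Rankin's trick -/
theorem rankin (m : ℕ) : ∃ C : ℝ, 0 ≤ C ∧ ∀ z : ℕ, 2 ≤ z → ∀ ξ v : ℝ, 1 ≤ ξ → 0 ≤ v →
    (VZ m z)⁻¹ * (1 - Real.exp (-v * (Real.log ξ / Real.log z) +
      (Real.exp v - 1) * (1 + C / Real.log z))) ≤ GZ m ξ z := by
  obtain ⟨C0, hC0⟩ := Pool.Agent.Helper923.HMertens.mertens_log
  refine ⟨|C0|, abs_nonneg _, ?_⟩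
  intro z hz ξ v hξ hv
  have hz2 : (2 : ℝ) ≤ z := by exact_mod_cast hz
  have hlz : 0 < Real.log z := Real.log_pos (by linarith)
  have hξ0 : 0 < ξ := by linarith
  set s := v / Real.log z with hs
  have hs0 : 0 ≤ s := by positivity
  have hV := VZ_pos m z
  -- splitting
  have hsplit : (VZ m z)⁻¹ = GZ m ξ z +
      ∑ l ∈ (PZ m z).divisors.filter (fun l : ℕ => ¬ (l : ℝ) ≤ ξ), 1 / (l.totient : ℝ) := by
    rw [← sum_inv_totient]
    exact (sum_filter_add_sum_filter_not _ _ _).symm
  have htail : ∑ l ∈ (PZ m z).divisors.filter (fun l : ℕ => ¬ (l : ℝ) ≤ ξ), 1 / (l.totient : ℝ) ≤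
      ξ ^ (-s) * ∑ l ∈ (PZ m z).divisors, (l : ℝ) ^ s / (l.totient : ℝ) := by
    rw [mul_sum]
    calc ∑ l ∈ (PZ m z).divisors.filter (fun l : ℕ => ¬ (l : ℝ) ≤ ξ), 1 / (l.totient : ℝ)
        ≤ ∑ l ∈ (PZ m z).divisors.filter (fun l : ℕ => ¬ (l : ℝ) ≤ ξ),
          ξ ^ (-s) * ((l : ℝ) ^ s / (l.totient : ℝ)) := by
          apply sum_le_sum
          intro l hl
          rw [mem_filter, Nat.mem_divisors] at hl
          have h1 : (1 : ℝ) ≤ ξ ^ (-s) * (l : ℝ) ^ s := by
            rw [Real.rpow_neg hξ0.le, inv_mul_eq_div, one_le_div (by positivity)]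
            exact Real.rpow_le_rpow hξ0.le (not_le.1 hl.2).le hs0
          rw [← mul_div_assoc]
          gcongr
      _ ≤ _ := by
          apply sum_le_sum_of_subset_of_nonneg (filter_subset _ _)
          intro l hl _
          positivity
  have hsum : ∑ p ∈ PP m z, Real.log p / p ≤ Real.log z + |C0| := by
    have h1 := (abs_le.1 (hC0 z (by omega))).2
    have h2 : ∑ p ∈ PP m z, Real.log p / p ≤ ∑ p ∈ (Finset.Icc 1 z).filter Nat.Prime, Real.log p / p := by
      apply sum_le_sum_of_subset_of_nonneg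
      · intro p hp
        rw [mem_PP] at hp
        rw [mem_filter, mem_Icc]
        exact ⟨⟨hp.2.1.one_le, hp.1.le⟩, hp.2.1⟩
      · intro p hp _
        have : 0 ≤ Real.log p := Real.log_natCast_nonneg p
        positivity
    have := le_abs_self C0
    linarith
  have hprod : ∏ p ∈ PP m z, (1 + (p : ℝ) ^ s / ((p : ℝ) - 1)) ≤
      (VZ m z)⁻¹ * Real.exp ((Real.exp v - 1) * (1 + |C0| / Real.log z)) := by
    calc ∏ p ∈ PP m z, (1 + (p : ℝ) ^ s / ((p : ℝ) - 1))
        ≤ ∏ p ∈ PP m z, ((1 - 1 / (p : ℝ))⁻¹ *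
            Real.exp ((Real.exp v - 1) / Real.log z * (Real.log p / p))) := by
          apply Finset.prod_le_prod
          · intro p hp
            have hpp := PP_prime hp
            have hp2 : (2 : ℝ) ≤ p := by exact_mod_cast hpp.two_le
            have : 0 ≤ (p : ℝ) ^ s / ((p : ℝ) - 1) :=
              div_nonneg (by positivity) (by linarith)
            linarith
          · intro p hp
            have hpp := PP_prime hp
            have hp2 : (2 : ℝ) ≤ p := by exact_mod_cast hpp.two_le
            have hp0 : (0 : ℝ) < p := by linarith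
            have hpz : (p : ℝ) ≤ z := by
              exact_mod_cast (mem_PP.1 hp).1.le
            have hlp : 0 ≤ Real.log p := Real.log_nonneg (by linarith)
            have hlpz : Real.log p ≤ Real.log z := Real.log_le_log hp0 hpz
            set t := Real.log p / Real.log z with ht
            have ht0 : 0 ≤ t := by positivity
            have ht1 : t ≤ 1 := by rw [ht, div_le_one hlz]; exact hlpz
            have e1 : (p : ℝ) ^ s = Real.exp (t * v) := by
              rw [Real.rpow_def_of_pos hp0, ht, hs]; congr 1; field_simp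
            have h2 : Real.exp (t * v) - 1 ≤ t * (Real.exp v - 1) := by
              have hc := convexOn_exp.2 (Set.mem_univ v) (Set.mem_univ (0 : ℝ)) ht0
                (by linarith : 0 ≤ 1 - t) (by ring)
              simp only [smul_eq_mul, mul_zero, add_zero, Real.exp_zero, mul_one] at hc
              linarith
            have h3 : 1 + (p : ℝ) ^ s / ((p : ℝ) - 1) =
                (1 - 1 / (p : ℝ))⁻¹ * (1 + (Real.exp (t * v) - 1) / p) := by
              rw [e1]
              have h1 : (p : ℝ) - 1 ≠ 0 := by linarith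
              field_simp
              ring
            rw [h3]
            have h4 : 0 ≤ (1 - 1 / (p : ℝ))⁻¹ := by
              have : 1 / (p : ℝ) ≤ 1 / 2 := by gcongr
              apply inv_nonneg.2; linarith
            apply mul_le_mul_of_nonneg_left _ h4
            have h5 : (Real.exp v - 1) / Real.log z * (Real.log p / p) = t * (Real.exp v - 1) / p := by
              rw [ht]; field_simp
            rw [h5]
            calc 1 + (Real.exp (t * v) - 1) / p ≤ 1 + t * (Real.exp v - 1) / p := by gcongr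
              _ ≤ Real.exp (t * (Real.exp v - 1) / p) := by
                have := Real.add_one_le_exp (t * (Real.exp v - 1) / p)
                linarith
      _ = (VZ m z)⁻¹ * Real.exp ((Real.exp v - 1) / Real.log z * ∑ p ∈ PP m z, (Real.log p / p)) := by
          rw [prod_mul_distrib, VZ, ← prod_inv_distrib, mul_sum, Real.exp_sum]
      _ ≤ _ := by
          have h6 : (Real.exp v - 1) / Real.log z * ∑ p ∈ PP m z, (Real.log p / p) ≤
              (Real.exp v - 1) * (1 + |C0| / Real.log z) := by
            have h7 : 0 ≤ (Real.exp v - 1) / Real.log z := by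
              apply div_nonneg _ hlz.le
              have := Real.add_one_le_exp v
              linarith
            calc _ ≤ (Real.exp v - 1) / Real.log z * (Real.log z + |C0|) :=
                  mul_le_mul_of_nonneg_left hsum h7
              _ = _ := by field_simp
          gcongr
  have hfin : ∑ l ∈ (PZ m z).divisors.filter (fun l : ℕ => ¬ (l : ℝ) ≤ ξ), 1 / (l.totient : ℝ) ≤
      (VZ m z)⁻¹ * Real.exp (-v * (Real.log ξ / Real.log z) +
      (Real.exp v - 1) * (1 + |C0| / Real.log z)) := by
    calc _ ≤ ξ ^ (-s) * ∑ l ∈ (PZ m z).divisors, (l : ℝ) ^ s / (l.totient : ℝ) := htail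
      _ ≤ ξ ^ (-s) * ((VZ m z)⁻¹ * Real.exp ((Real.exp v - 1) * (1 + |C0| / Real.log z))) := by
          rw [sum_gA]
          gcongr
      _ = _ := by
          rw [Real.exp_add, Real.rpow_def_of_pos hξ0, hs]
          have : Real.log ξ * -(v / Real.log z) = -v * (Real.log ξ / Real.log z) := by ring
          rw [this]; ring
  rw [mul_sub, mul_one]
  linarith

end Pool.Agent.W89.Sv
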