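import Mathlib
import Pool.Agent.W89.Sv.Adm
import Pool.Agent.W89.Sv.Sel
import Pool.Agent.W89.Sv.Rank
import Pool.Agent.Helper923.HMertens

/-! # Starting values `U(16) ≤ 1.0004`, `L(16) ≥ 0.9996` -/

set_option autoImplicit false

namespace Pool.Agent.W89.Sv

open Finset Filter Topology

lemma inv_GZ {V G ρ : ℝ} (hV : 0 < V) (hρ : ρ < 1) (h : V⁻¹ * (1 - ρ) ≤ G) :
    1 / G - V ≤ V * (ρ / (1 - ρ)) := by
  have h1 : 0 < 1 - ρ := by linarith
  have h2 : 0 < V⁻¹ * (1 - ρ) := by positivity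
  have h3 : 1 / G ≤ 1 / (V⁻¹ * (1 - ρ)) := one_div_le_one_div_of_le h2 h
  have h4 : 1 / (V⁻¹ * (1 - ρ)) = V / (1 - ρ) := by
    field_simp
  have h5 : V / (1 - ρ) - V = V * (ρ / (1 - ρ)) := by
    field_simp
    ring
  linarith

lemma exp_two : Real.exp 2 ≤ 739 / 100 := by
  have h1 : Real.exp 2 = Real.exp 1 ^ 2 := by
    rw [← Real.exp_nat_mul]
    norm_num
  rw [h1]
  have h2 : Real.exp 1 ^ 2 ≤ (2.7182818286 : ℝ) ^ 2 :=
    pow_le_pow_left₀ (Real.exp_pos _).le Real.exp_one_lt_d9.le 2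
  refine h2.trans ?_
  norm_num

/-- `exp (-8.5) ≤ 1 / 4900` -/
lemma exp_85 : Real.exp (-(85 / 10)) ≤ 1 / 4900 := by
  have h1 : Real.exp (85 / 10) ^ 2 = Real.exp 1 ^ 17 := by
    rw [← Real.exp_nat_mul, ← Real.exp_nat_mul]
    norm_num
  have h2 : (2.7182818283 : ℝ) ^ 17 ≤ Real.exp 1 ^ 17 :=
    pow_le_pow_left₀ (by norm_num) Real.exp_one_gt_d9.le 17
  have h3 : (4900 : ℝ) ^ 2 ≤ (2.7182818283 : ℝ) ^ 17 := by norm_num
  have h4 : (4900 : ℝ) ^ 2 ≤ Real.exp (85 / 10) ^ 2 := by
    rw [h1]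
    exact h3.trans h2
  have h5 : (4900 : ℝ) ≤ Real.exp (85 / 10) :=
    (pow_le_pow_iff_left₀ (by norm_num) (Real.exp_pos _).le (by norm_num)).1 h4
  rw [Real.exp_neg, inv_le_comm₀ (Real.exp_pos _) (by norm_num)]
  norm_num at h5 ⊢
  exact h5

/-- the exponential of the Rankin exponent -/
lemma exp_bound16 {s ex : ℝ} (hs : 1 ≤ s) (h : ex ≤ -(85 / 10) - 2 * (s - 1)) :
    Real.exp ex ≤ 1 / 4900 / s ^ 2 := by
  have hs0 : 0 < s := by linarith
  have h1 : s ≤ Real.exp (s - 1) := by
    have := Real.add_one_le_exp (s - 1)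
    linarith
  have h2 : s ^ 2 ≤ Real.exp (2 * (s - 1)) := by
    calc s ^ 2 ≤ Real.exp (s - 1) ^ 2 := pow_le_pow_left₀ hs0.le h1 2
      _ = Real.exp (2 * (s - 1)) := by
        rw [← Real.exp_nat_mul]
        norm_num
  have h3 : Real.exp (-(2 * (s - 1))) ≤ 1 / s ^ 2 := by
    rw [Real.exp_neg, ← one_div]
    exact one_div_le_one_div_of_le (by positivity) h2
  calc Real.exp ex ≤ Real.exp (-(85 / 10) + -(2 * (s - 1))) := by
        apply Real.exp_le_exp.2
        linarith
    _ = Real.exp (-(85 / 10)) * Real.exp (-(2 * (s - 1))) := Real.exp_add _ _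
    _ ≤ 1 / 4900 * (1 / s ^ 2) :=
        mul_le_mul exp_85 h3 (Real.exp_pos _).le (by norm_num)
    _ = 1 / 4900 / s ^ 2 := by ring

theorem start_upper (m : ℕ) : UA m 16 (10004 / 10000) := by
  intro ε hε
  obtain ⟨C, hC0, hC⟩ := rankin m
  have hlog : Tendsto (fun z : ℕ => Real.log (z : ℝ)) atTop atTop :=
    Real.tendsto_log_atTop.comp tendsto_natCast_atTop_atTop
  obtain ⟨z0, hz0⟩ := eventually_atTop.1 ((hlog.eventually_ge_atTop (100 * C + 1)).and (eventually_ge_atTop 2))
  refine ⟨z0, fun z hz D hD ι S v X hX d hd hdz => ?_⟩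
  obtain ⟨hl, hz2⟩ := hz0 z hz
  have hz2R : (2 : ℝ) ≤ z := by exact_mod_cast hz2
  have hlz : 0 < Real.log z := Real.log_pos (by linarith)
  have hD16 : (z : ℝ) ^ (16 : ℕ) ≤ D := by
    rw [← Real.rpow_natCast]
    exact_mod_cast hD
  have hD0 : 0 < D := lt_of_lt_of_le (by positivity) hD16
  have hD1 : 1 ≤ D := le_trans (one_le_pow₀ (by linarith)) hD16
  have hξ : 1 ≤ √D := by rw [Real.one_le_sqrt]; exact hD1
  have hsel := selberg m S v X hX z d hdz hd (√D) hξ
  rw [Real.sq_sqrt hD0.le] at hsel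
  have hV := VZ_pos m z
  have hr := hC z hz2 (√D) 2 hξ (by norm_num)
  have hlogD : 16 * Real.log z ≤ Real.log D := by
    have := Real.log_le_log (by positivity) hD16
    rw [Real.log_pow] at this
    exact_mod_cast this
  have hq : 8 ≤ Real.log (√D) / Real.log z := by
    rw [le_div_iff₀ hlz, Real.log_sqrt hD0.le]
    linarith
  have hCz : C / Real.log z ≤ 1 / 100 := by
    rw [div_le_iff₀ hlz]
    linarith
  set ρ : ℝ := Real.exp (-2 * (Real.log (√D) / Real.log z) + (Real.exp 2 - 1) * (1 + C / Real.log z)) with hρ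
  have hρ1 : ρ ≤ 1 / 4900 := by
    refine le_trans ?_ exp_85
    apply Real.exp_le_exp.2
    have h1 := exp_two
    have h2 : 0 ≤ 1 + C / Real.log z := by positivity
    have h3 : (Real.exp 2 - 1) * (1 + C / Real.log z) ≤ (739 / 100 - 1) * (1 + 1 / 100) := by
      apply mul_le_mul (by linarith) (by linarith) h2 (by norm_num)
    linarith
  have hρ0 : 0 < ρ := Real.exp_pos _
  have h1 := inv_GZ hV (by linarith : ρ < 1) hr
  have h2 : ρ / (1 - ρ) ≤ 4 / 10000 := by
    rw [div_le_iff₀ (by linarith)]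
    linarith
  have h3 : 1 / GZ m (√D) z ≤ 10004 / 10000 * VZ m z := by
    have := mul_le_mul_of_nonneg_left h2 hV.le
    linarith
  have h4 : X / d / GZ m (√D) z ≤ (10004 / 10000 + ε) * (X / d * VZ m z) := by
    have hY : 0 ≤ X / d := by positivity
    calc X / d / GZ m (√D) z = X / d * (1 / GZ m (√D) z) := by ring
      _ ≤ X / d * (10004 / 10000 * VZ m z) := mul_le_mul_of_nonneg_left h3 hY
      _ ≤ (10004 / 10000 + ε) * (X / d * VZ m z) := by
        have : 0 ≤ X / d * VZ m z := by positivity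
        nlinarith
  refine hsel.trans ?_
  unfold RR
  linarith

/-- Mertens for the sifting primes -/
lemma mertens_PP (m : ℕ) : ∃ C : ℝ, 0 ≤ C ∧ ∀ z : ℕ, 1 ≤ z →
    ∑ p ∈ PP m z, Real.log p / p ≤ Real.log z + C := by
  obtain ⟨C, hC⟩ := Pool.Agent.Helper923.HMertens.mertens_log
  refine ⟨|C|, abs_nonneg _, fun z hz => ?_⟩
  have h1 := hC z hz
  have h2 : ∑ p ∈ PP m z, Real.log p / p ≤ ∑ p ∈ (Finset.Icc 1 z).filter Nat.Prime, Real.log p / p := by
    apply sum_le_sum_of_subset_of_nonneg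
    · intro p hp
      rw [mem_PP] at hp
      rw [mem_filter, mem_Icc]
      exact ⟨⟨hp.2.1.one_lt.le, hp.1.le⟩, hp.2.1⟩
    · intro p _ _
      have : 0 ≤ Real.log p := Real.log_natCast_nonneg p
      positivity
  have h3 := (abs_le.1 h1).2
  have h4 := le_abs_self C
  linarith

/-- the main analytic estimate -/
lemma analytic16 (m : ℕ) (hm : m ≠ 0) (h2m : 2 ∣ m) : ∃ z0 : ℕ, ∀ z : ℕ, z0 ≤ z → ∀ lam : ℝ,
    16 * Real.log z ≤ lam → ∀ ξ : ℕ → ℝ,
    (∀ p ∈ PP m z, 1 ≤ ξ p ∧ Real.log (ξ p) = (lam - Real.log p) / 2) →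
    ∑ p ∈ PP m z, 1 / (p : ℝ) * (1 / GZ m (ξ p) p - VZ m p) ≤ 4 / 10000 * VZ m z := by
  obtain ⟨C, hC0, hC⟩ := rankin m
  obtain ⟨C', hC'0, hM⟩ := mertens_PP m
  have hVl := V_lim m hm
  set c : ℝ := cV m with hc
  have hc0 : 0 < c := cV_pos m
  -- closeness to the limit
  have h1 : ∀ᶠ n : ℕ in atTop, |VZ m n * Real.log n - c| ≤ 5 / 1000 * c := by
    have h2 := (Metric.tendsto_nhds.1 hVl) (5 / 1000 * c) (by positivity)
    filter_upwards [h2] with n hn
    rw [Real.dist_eq] at hn
    exact hn.le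
  have h2 : ∀ᶠ n : ℕ in atTop, 100 * C ≤ Real.log n :=
    (Real.tendsto_log_atTop.comp (tendsto_natCast_atTop_atTop (R := ℝ))).eventually_ge_atTop _
  obtain ⟨p1, hp1⟩ := eventually_atTop.1 (h1.and (h2.and (eventually_ge_atTop 3)))
  have hp13 : 3 ≤ p1 := (hp1 p1 le_rfl).2.2
  have hp1R : (3 : ℝ) ≤ p1 := by exact_mod_cast hp13
  have hlog3 : (1 : ℝ) ≤ Real.log 3 := by
    rw [Real.le_log_iff_exp_le (by norm_num)]
    have := Real.exp_one_lt_d9
    linarith
  have hlp1 : 1 ≤ Real.log p1 := hlog3.trans (Real.log_le_log (by norm_num) hp1R)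
  set κ : ℝ := 5 / Real.log p1 with hκ
  have hκ0 : 0 < κ := by positivity
  set K : ℝ := 739 / 100 + 639 / 100 * C with hK
  set η : ℝ := 1 / 100000 * c with hη
  have hη0 : 0 < η := by positivity
  obtain ⟨z1, hz1⟩ := eventually_atTop.1
    ((Real.tendsto_log_atTop.comp (tendsto_natCast_atTop_atTop (R := ℝ))).eventually_ge_atTop
      (1 + 2 * Real.exp K / (κ ^ 2 * η) + 100 * C' + 2 * η))
  refine ⟨max z1 p1, fun z hz lam hlam ξ hξ => ?_⟩
  have hzp1 : p1 ≤ z := (le_max_right _ _).trans hz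
  have hzR : (3 : ℝ) ≤ z := hp1R.trans (by exact_mod_cast hzp1)
  have hLz := hz1 z ((le_max_left _ _).trans hz)
  simp only [Function.comp] at hLz
  set Lz : ℝ := Real.log z with hLzd
  have hA0 : 0 ≤ 2 * Real.exp K / (κ ^ 2 * η) := by positivity
  have hLz1 : 1 ≤ Lz := by linarith
  have hLz0 : 0 < Lz := by linarith
  have hLzK : 2 * Real.exp K / (κ ^ 2 * η) ≤ Lz := by linarith
  have hLzC : 100 * C' ≤ Lz := by linarith
  have hLzη : 2 * η ≤ Lz := by linarith
  have hVz := VZ_pos m z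
  have hVzc : 995 / 1000 * c ≤ VZ m z * Lz := by
    have := (abs_le.1 (hp1 z hzp1).1).1
    linarith
  have htele : ∑ p ∈ PP m z, VZ m p / p ≤ 1 := by
    rw [VZ_tele]; linarith
  -- the bound for each prime
  have key : ∀ p ∈ PP m z, 1 / (p : ℝ) * (1 / GZ m (ξ p) p - VZ m p) ≤
      3 / 10000 * VZ m z / Lz * (Real.log p / p) + 2 * η / Lz * (VZ m p / p) := by
    intro p hp
    obtain ⟨hξ1, hξ2⟩ := hξ p hp
    rw [mem_PP] at hp
    have hp2 : p ≠ 2 := by
      rintro rfl
      exact hp.2.2 h2m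
    have hp3 : 3 ≤ p := by
      have := hp.2.1.two_le
      omega
    have hpR : (3 : ℝ) ≤ p := by exact_mod_cast hp3
    have hp0 : (0 : ℝ) < p := by linarith
    set x : ℝ := Real.log p with hx
    have hx1 : 1 ≤ x := hlog3.trans (Real.log_le_log (by norm_num) hpR)
    have hx0 : 0 < x := by linarith
    have hxLz : x ≤ Lz := Real.log_le_log hp0 (by exact_mod_cast hp.1.le)
    have hVp := VZ_pos m p
    have hrank := hC p (by omega) (ξ p) 2 hξ1 (by norm_num)
    rw [hξ2, ← hx] at hrank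
    set ex : ℝ := -2 * ((lam - x) / 2 / x) + (Real.exp 2 - 1) * (1 + C / x) with hex
    set s : ℝ := Lz / x with hs
    have hs1 : 1 ≤ s := by
      rw [hs, le_div_iff₀ hx0]
      linarith
    have hw : 8 * s - 1 / 2 ≤ (lam - x) / 2 / x := by
      rw [hs, le_div_iff₀ hx0]
      have h3 : (8 * (Lz / x) - 1 / 2) * x = 8 * Lz - 1 / 2 * x := by
        field_simp
      rw [h3]
      linarith
    have hCx : 0 ≤ C / x := by positivity
    have hex1 : ex ≤ -16 * s + 1 + 639 / 100 * (1 + C / x) := by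
      have h3 := exp_two
      have h4 : (Real.exp 2 - 1) * (1 + C / x) ≤ 639 / 100 * (1 + C / x) := by
        apply mul_le_mul_of_nonneg_right _ (by linarith)
        linarith
      rw [hex]
      linarith
    rcases lt_or_ge p p1 with hlt | hge
    · -- small primes
      have hxp1 : x ≤ Real.log p1 := Real.log_le_log hp0 (by exact_mod_cast hlt.le)
      have h3 : κ * Lz ≤ 5 * s := by
        rw [hκ, hs, div_mul_eq_mul_div, mul_div_assoc]
        apply mul_le_mul_of_nonneg_left _ (by norm_num)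
        exact div_le_div_of_nonneg_left hLz0.le hx0 hxp1
      have h4 : C / x ≤ C := div_le_self hC0 hx1
      have h5 : ex ≤ K - κ * Lz := by
        rw [hK]
        linarith
      have h6 : Real.exp ex ≤ η / Lz := by
        have h7 : (κ * Lz) ^ 2 / 2 ≤ Real.exp (κ * Lz) := by
          have := Real.quadratic_le_exp_of_nonneg (x := κ * Lz) (by positivity)
          have h8 : 0 ≤ κ * Lz := by positivity
          linarith
        have h8 : Real.exp (-(κ * Lz)) ≤ 2 / (κ * Lz) ^ 2 := by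
          rw [Real.exp_neg, inv_le_comm₀ (Real.exp_pos _) (by positivity), inv_div]
          exact h7
        calc Real.exp ex ≤ Real.exp (K + -(κ * Lz)) := by
              apply Real.exp_le_exp.2
              linarith
          _ = Real.exp K * Real.exp (-(κ * Lz)) := Real.exp_add _ _
          _ ≤ Real.exp K * (2 / (κ * Lz) ^ 2) := by gcongr
          _ = (2 * Real.exp K / (κ ^ 2 * η)) * (η / Lz ^ 2) := by
              field_simp
          _ ≤ Lz * (η / Lz ^ 2) := by gcongr
          _ = η / Lz := by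
              field_simp
      have h7 : η / Lz ≤ 1 / 2 := by
        rw [div_le_iff₀ hLz0]
        linarith
      have h8 := inv_GZ hVp (by linarith) hrank
      have h9 : Real.exp ex / (1 - Real.exp ex) ≤ 2 * η / Lz := by
        rw [div_le_iff₀ (by linarith)]
        have h10 : 2 * η / Lz = 2 * (η / Lz) := by ring
        rw [h10]
        nlinarith [Real.exp_pos ex]
      have h10 : 1 / GZ m (ξ p) p - VZ m p ≤ VZ m p * (2 * η / Lz) :=
        h8.trans (mul_le_mul_of_nonneg_left h9 hVp.le)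
      calc 1 / (p : ℝ) * (1 / GZ m (ξ p) p - VZ m p) ≤ 1 / (p : ℝ) * (VZ m p * (2 * η / Lz)) := by gcongr
        _ = 0 + 2 * η / Lz * (VZ m p / p) := by ring
        _ ≤ 3 / 10000 * VZ m z / Lz * (x / p) + 2 * η / Lz * (VZ m p / p) := by
            gcongr
            positivity
    · -- large primes
      have h3 : 100 * C ≤ x := (hp1 p hge).2.1
      have h4 : C / x ≤ 1 / 100 := by
        rw [div_le_iff₀ hx0]
        linarith
      have h5 : ex ≤ -(85 / 10) - 2 * (s - 1) := by linarith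
      have h6 := exp_bound16 hs1 h5
      have hs0 : 0 < s := by linarith
      have hs2 : 1 ≤ s ^ 2 := one_le_pow₀ hs1
      have h7 : Real.exp ex ≤ 1 / 4900 := by
        refine h6.trans ?_
        exact div_le_self (by norm_num) hs2
      have h8 := inv_GZ hVp (by linarith) hrank
      have h9 : Real.exp ex / (1 - Real.exp ex) ≤ 1 / 4899 / s ^ 2 := by
        rw [div_le_div_iff₀ (by linarith) (by positivity)]
        rw [le_div_iff₀ (by positivity)] at h6
        have h10 : 0 ≤ Real.exp ex := (Real.exp_pos ex).le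
        nlinarith
      have h10 : VZ m p ≤ 1005 / 995 * VZ m z * s := by
        have h11 := (abs_le.1 (hp1 p hge).1).2
        have h12 : VZ m p * x ≤ 1005 / 1000 * c := by linarith
        have h13 : VZ m p * x ≤ (1005 / 995 * VZ m z * s) * x := by
          have h14 : (1005 / 995 * VZ m z * s) * x = 1005 / 995 * (VZ m z * Lz) := by
            rw [hs]
            field_simp
          rw [h14]
          linarith
        exact le_of_mul_le_mul_right h13 hx0
      have h11 : 1 / GZ m (ξ p) p - VZ m p ≤ 3 / 10000 * VZ m z / s := by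
        calc 1 / GZ m (ξ p) p - VZ m p ≤ VZ m p * (Real.exp ex / (1 - Real.exp ex)) := h8
          _ ≤ (1005 / 995 * VZ m z * s) * (1 / 4899 / s ^ 2) := by
              apply mul_le_mul h10 h9 _ (by positivity)
              apply div_nonneg (Real.exp_pos ex).le (by linarith)
          _ = (1005 / 995 * (1 / 4899)) * (VZ m z / s) := by
              field_simp
          _ ≤ 3 / 10000 * (VZ m z / s) := by
              gcongr
              norm_num
          _ = 3 / 10000 * VZ m z / s := by ring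
      calc 1 / (p : ℝ) * (1 / GZ m (ξ p) p - VZ m p)
          ≤ 1 / (p : ℝ) * (3 / 10000 * VZ m z / s) := by
            gcongr
        _ = 3 / 10000 * VZ m z / Lz * (x / p) + 0 := by
            rw [hs]
            field_simp
            ring
        _ ≤ 3 / 10000 * VZ m z / Lz * (x / p) + 2 * η / Lz * (VZ m p / p) := by
            gcongr
            positivity
  calc ∑ p ∈ PP m z, 1 / (p : ℝ) * (1 / GZ m (ξ p) p - VZ m p)
      ≤ ∑ p ∈ PP m z, (3 / 10000 * VZ m z / Lz * (Real.log p / p) + 2 * η / Lz * (VZ m p / p)) :=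
        sum_le_sum key
    _ = 3 / 10000 * VZ m z / Lz * ∑ p ∈ PP m z, Real.log p / p + 2 * η / Lz * ∑ p ∈ PP m z, VZ m p / p := by
        rw [sum_add_distrib, ← mul_sum, ← mul_sum]
    _ ≤ 3 / 10000 * VZ m z / Lz * (101 / 100 * Lz) + 2 * η / Lz * 1 := by
        have h3 := hM z (by
          have : (1 : ℝ) ≤ z := by linarith
          exact_mod_cast this)
        gcongr
        linarith
    _ ≤ 4 / 10000 * VZ m z := by
        have h3 : 3 / 10000 * VZ m z / Lz * (101 / 100 * Lz) = 303 / 1000000 * VZ m z := by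
          field_simp
          ring
        have h4 : 2 * η / Lz * 1 ≤ 3 / 100000 * VZ m z := by
          rw [mul_one, div_le_iff₀ hLz0, hη]
          nlinarith
        rw [h3]
        linarith

theorem start_lower (m : ℕ) (hm : m ≠ 0) (h2m : 2 ∣ m) : LA m 16 (9996 / 10000) := by
  intro ε hε
  obtain ⟨z0, hz0⟩ := analytic16 m hm h2m
  refine ⟨max z0 2, fun z hz D hD ι S v X hX d hd hdz => ?_⟩
  have hz2 : (2 : ℝ) ≤ z := by exact_mod_cast (le_max_right _ _).trans hz
  have hD16 : (z : ℝ) ^ (16 : ℕ) ≤ D := by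
    rw [← Real.rpow_natCast]
    exact_mod_cast hD
  have hD0 : 0 < D := lt_of_lt_of_le (by positivity) hD16
  have hzD : (z : ℝ) ≤ D := by
    refine le_trans ?_ hD16
    exact le_self_pow₀ (by linarith) (by norm_num)
  have hlogD : 16 * Real.log z ≤ Real.log D := by
    have := Real.log_le_log (by positivity) hD16
    rw [Real.log_pow] at this
    exact_mod_cast this
  have hξ : ∀ p ∈ PP m z, 1 ≤ √(D / p) ∧ Real.log (√(D / p)) = (Real.log D - Real.log p) / 2 := by
    intro p hp
    rw [mem_PP] at hp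
    have hp0 : (0 : ℝ) < p := by exact_mod_cast hp.2.1.pos
    have hpz : (p : ℝ) ≤ z := by exact_mod_cast hp.1.le
    constructor
    · rw [Real.one_le_sqrt, one_le_div hp0]
      linarith
    · rw [Real.log_sqrt (by positivity), Real.log_div hD0.ne' hp0.ne']
  have hVz := VZ_pos m z
  have han := hz0 z ((le_max_left _ _).trans hz) (Real.log D) hlogD (fun p => √(D / p)) hξ
  have hY : 0 ≤ X / d := by positivity
  have hd0 : (d : ℝ) ≠ 0 := by exact_mod_cast hd.ne'
  -- Selberg for each prime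
  have hsel : ∀ p ∈ (PP m z).filter (fun p => 0 ≤ p), sift m S v (d * p) p ≤
      X / d * (1 / (p : ℝ) * (1 / GZ m (√(D / p)) p)) + RR m S v X (d * p) p (D / p) := by
    intro p hp
    have hp := (mem_filter.1 hp).1
    have h1 := hξ p hp
    rw [mem_PP] at hp
    have hp0 : (0 : ℝ) < p := by exact_mod_cast hp.2.1.pos
    have h4 : (d * p).Coprime (PZ m p) := by
      apply Nat.Coprime.mul_left
      · exact Nat.Coprime.coprime_dvd_right (PZ_dvd hp.1.le) hdz
      · exact coprime_PZ hp.2.1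
    have h2 := selberg m S v X hX p (d * p) h4 (Nat.mul_pos hd hp.2.1.pos) (√(D / p)) h1.1
    rw [Real.sq_sqrt (by positivity)] at h2
    have h3 : X / ((d * p : ℕ) : ℝ) / GZ m (√(D / p)) p = X / d * (1 / (p : ℝ) * (1 / GZ m (√(D / p)) p)) := by
      push_cast
      field_simp
    rw [h3] at h2
    exact h2
  have hsum := sum_le_sum hsel
  rw [sum_add_distrib, ← mul_sum] at hsum
  have hfil : (PP m z).filter (fun p => 0 ≤ p) = PP m z := filter_true_of_mem fun _ _ => Nat.zero_le _
  have hb := buchstab m S v (Nat.zero_le z) hdz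
  have hr := RR_buch m S v X (d := d) (D := D) (Nat.zero_le z)
  rw [hfil] at hsum hb hr
  have hP0 : PZ m 0 = 1 := by simp [PZ, PP]
  have hs0 : X / d - RR m S v X d 0 D ≤ sift m S v d 0 := by
    have h1 : RR m S v X d 0 D = |rem S v X d| := by
      unfold RR
      rw [hP0, Nat.divisors_one, filter_singleton, if_pos (by push_cast; linarith), sum_singleton]
      simp
    have h2 : sift m S v d 0 = X / d + rem S v X d := by
      unfold sift rem
      rw [hP0]
      simp
    rw [h1, h2]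
    have := neg_abs_le (rem S v X d)
    linarith
  have hmain : ∑ p ∈ PP m z, 1 / (p : ℝ) * (1 / GZ m (√(D / p)) p) ≤ 1 - VZ m z + 4 / 10000 * VZ m z := by
    have h1 : ∑ p ∈ PP m z, 1 / (p : ℝ) * (1 / GZ m (√(D / p)) p - VZ m p) =
        ∑ p ∈ PP m z, 1 / (p : ℝ) * (1 / GZ m (√(D / p)) p) - ∑ p ∈ PP m z, VZ m p / p := by
      rw [← sum_sub_distrib]
      apply sum_congr rfl
      intro p _
      ring
    rw [h1, VZ_tele] at han
    linarith
  have h5 := mul_le_mul_of_nonneg_left hmain hY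
  have h6 : 0 ≤ X / d * VZ m z := by positivity
  have h7 : (9996 / 10000 - ε) * (X / d * VZ m z) ≤ 9996 / 10000 * (X / d * VZ m z) := by nlinarith
  nlinarith

end Pool.Agent.W89.Sv
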