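import Mathlib
import Pool.Agent.W89.Sv.Adm
import Pool.Agent.W89.Sv.Start

/-! # Iteration of the Buchstab steps on the grid `i / 16`, `i ≤ 256` -/

set_option autoImplicit false

namespace Pool.Agent.W89.Sv

open Finset Filter Topology

/-- one pass for the lower potentials `a_i = 10 ^ 9 s_i L(s_i)`, `s_i = i / 16` -/
def lowGo : ℕ → ℕ → List ℕ → List ℕ
  | 0, _, _ => List.replicate 16 0
  | _ + 1, _, [] => []
  | j + 1, a, u :: us =>
    match a - (u + j) / (j + 1) with
    | 0 => 0 :: lowGo j 0 us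
    | n + 1 => (n + 1) :: lowGo j (n + 1) us

/-- one pass for the upper potentials `u_i = 10 ^ 9 s_i U(s_i)` -/
def upGo : ℕ → ℕ → List ℕ → List ℕ
  | 0, u, _ => List.replicate 16 u
  | _ + 1, _, [] => []
  | j + 1, u, a :: as =>
    match u - a / (j + 1) with
    | 0 => 0 :: upGo j 0 as
    | n + 1 => (n + 1) :: upGo j (n + 1) as

def a0 : ℕ := 16 * 999600000
def u0 : ℕ := 16 * 1000400000

def stepU (U : List ℕ) : List ℕ := upGo 239 u0 ((lowGo 239 a0 (U.drop 16)).drop 16)

def iterU : ℕ → List ℕ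
  | 0 => List.replicate 255 u0
  | k + 1 => stepU (iterU k)

def finL : List ℕ := lowGo 239 a0 ((iterU 9).drop 16)
def finU : List ℕ := iterU 10

/-- index `i` is at position `255 - i` -/
def getI (l : List ℕ) (i : ℕ) : ℕ := (l.drop (255 - i)).headD 0

def Tterm (U : List ℕ) (k : ℕ) : ℕ :=
  let q := k + 17
  let j := 88 - q
  (16 * getI U j * (86 * (2 * q - 1) - 2 * q * (q - 1)) + (j * (2 * q * (q - 1)) * 86 - 1)) /
    (j * (2 * q * (q - 1)) * 86)

def Tsum (U : List ℕ) : ℕ := ((List.range 70).map (Tterm U)).sum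

theorem chk : 994 * 88 * 1000000 ≤ getI finL 88 * 16 ∧ Tsum finU ≤ 1174 * 1000000 := by decide +kernel

def PL (m i a : ℕ) : Prop := LA m ((i : ℝ) / 16) (16 * a / (10 ^ 9 * i))
def PU (m i u : ℕ) : Prop := UA m ((i : ℝ) / 16) (16 * u / (10 ^ 9 * i))

lemma PL_zero (m i : ℕ) : PL m i 0 := by
  unfold PL
  have : (16 * ((0 : ℕ) : ℝ) / (10 ^ 9 * i)) = 0 := by simp
  rw [this]
  exact LA_zero m _

lemma PL_step {m : ℕ} (hm : m ≠ 0) {j a u : ℕ} (h1 : PL m (j + 18) a) (h2 : PU m (j + 1) u) :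
    PL m (j + 17) (a - (u + j) / (j + 1)) := by
  unfold PL PU at *
  have e1 : (((j + 1 : ℕ) : ℝ) / 16) = ((j + 17 : ℕ) : ℝ) / 16 - 1 := by push_cast; ring
  rw [e1] at h2
  have hs : (1 : ℝ) < ((j + 17 : ℕ) : ℝ) / 16 := by
    push_cast
    have : (0 : ℝ) ≤ j := Nat.cast_nonneg _
    linarith
  have hst : ((j + 17 : ℕ) : ℝ) / 16 < ((j + 18 : ℕ) : ℝ) / 16 := by push_cast; linarith
  have h := lower_step m hm hs hst h2 h1
  have hj : (0 : ℝ) ≤ j := Nat.cast_nonneg _
  rcases Nat.lt_or_ge a ((u + j) / (j + 1)) with hlt | hge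
  · rw [Nat.sub_eq_zero_of_le hlt.le]
    have : (16 * ((0 : ℕ) : ℝ) / (10 ^ 9 * ((j + 17 : ℕ) : ℝ))) = 0 := by simp
    rw [this]
    exact LA_zero m _
  · refine h.mono ?_
    have hq : (u : ℝ) / (j + 1) ≤ (((u + j) / (j + 1) : ℕ) : ℝ) := by
      rw [div_le_iff₀ (by positivity)]
      have h3 := Nat.div_add_mod (u + j) (j + 1)
      have h4 : (u + j) % (j + 1) < j + 1 := Nat.mod_lt (u + j) (Nat.succ_pos j)
      have h5 : u ≤ (u + j) / (j + 1) * (j + 1) := by
        rw [mul_comm]
        omega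
      exact_mod_cast h5
    rw [Nat.cast_sub hge]
    push_cast
    have e2 : (16 * (a : ℝ) / (10 ^ 9 * ((j : ℝ) + 18))) * (((j : ℝ) + 18) / 16 / (((j : ℝ) + 17) / 16)) -
        16 * (u : ℝ) / (10 ^ 9 * ((j : ℝ) + 1)) * (((j : ℝ) + 18) / 16 / (((j : ℝ) + 17) / 16) - 1) =
        16 / (10 ^ 9 * ((j : ℝ) + 17)) * (a - u / (j + 1)) := by
      field_simp
      ring
    rw [e2]
    have e3 : 16 * ((a : ℝ) - (((u + j) / (j + 1) : ℕ) : ℝ)) / (10 ^ 9 * ((j : ℝ) + 17)) =
        16 / (10 ^ 9 * ((j : ℝ) + 17)) * (a - (((u + j) / (j + 1) : ℕ) : ℝ)) := by ring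
    rw [e3]
    apply mul_le_mul_of_nonneg_left _ (by positivity)
    linarith

lemma PU_step {m : ℕ} (hm : m ≠ 0) {j a u : ℕ} (h1 : PU m (j + 18) u) (h2 : PL m (j + 1) a) :
    PU m (j + 17) (u - a / (j + 1)) := by
  unfold PL PU at *
  have e1 : (((j + 1 : ℕ) : ℝ) / 16) = ((j + 17 : ℕ) : ℝ) / 16 - 1 := by push_cast; ring
  rw [e1] at h2
  have hs : (1 : ℝ) < ((j + 17 : ℕ) : ℝ) / 16 := by
    push_cast
    have : (0 : ℝ) ≤ j := Nat.cast_nonneg _
    linarith
  have hst : ((j + 17 : ℕ) : ℝ) / 16 < ((j + 18 : ℕ) : ℝ) / 16 := by push_cast; linarith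
  have h := upper_step m hm hs hst h2 h1
  have hj : (0 : ℝ) ≤ j := Nat.cast_nonneg _
  refine h.mono ?_
  have hq : ((a / (j + 1) : ℕ) : ℝ) ≤ (a : ℝ) / (j + 1) := by
    have := Nat.cast_div_le (α := ℝ) (m := a) (n := j + 1)
    push_cast at this ⊢
    exact this
  have hsub : (u : ℝ) - ((a / (j + 1) : ℕ) : ℝ) ≤ ((u - a / (j + 1) : ℕ) : ℝ) := by
    have : u ≤ (u - a / (j + 1)) + a / (j + 1) := by omega
    have h2 : (u : ℝ) ≤ ((u - a / (j + 1) : ℕ) : ℝ) + ((a / (j + 1) : ℕ) : ℝ) := by exact_mod_cast this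
    linarith
  push_cast
  have e2 : (16 * (u : ℝ) / (10 ^ 9 * ((j : ℝ) + 18))) * (((j : ℝ) + 18) / 16 / (((j : ℝ) + 17) / 16)) -
      16 * (a : ℝ) / (10 ^ 9 * ((j : ℝ) + 1)) * (((j : ℝ) + 18) / 16 / (((j : ℝ) + 17) / 16) - 1) =
      16 / (10 ^ 9 * ((j : ℝ) + 17)) * (u - a / (j + 1)) := by
    field_simp
    ring
  rw [e2]
  have e3 : 16 * ((u - a / (j + 1) : ℕ) : ℝ) / (10 ^ 9 * ((j : ℝ) + 17)) =
      16 / (10 ^ 9 * ((j : ℝ) + 17)) * ((u - a / (j + 1) : ℕ) : ℝ) := by ring
  rw [e3]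
  apply mul_le_mul_of_nonneg_left _ (by positivity)
  -- -a/(j+1) ≤ -floor
  have : (a : ℝ) / (j + 1) ≥ ((a / (j + 1) : ℕ) : ℝ) := hq
  linarith

lemma PU_anti {m : ℕ} (hm : m ≠ 0) {i u : ℕ} (hi : 0 < i) (h : PU m (i + 1) u) : PU m i u := by
  unfold PU at *
  have hi0 : (0 : ℝ) < i := by exact_mod_cast hi
  have h1 := upper_anti m hm (s := (i : ℝ) / 16) (t := ((i + 1 : ℕ) : ℝ) / 16) (by positivity)
    (by push_cast; linarith) h
  refine h1.mono (le_of_eq ?_)
  push_cast
  field_simp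

/-- `P` holds for the entries of a list with descending indices -/
def Good (P : ℕ → ℕ → Prop) : ℕ → List ℕ → Prop
  | _, [] => True
  | i, x :: xs => P i x ∧ Good P (i - 1) xs

lemma Good.drop {P : ℕ → ℕ → Prop} : ∀ (k i : ℕ) (l : List ℕ), Good P i l → Good P (i - k) (l.drop k) := by
  intro k
  induction k with
  | zero => intro i l h; simpa using h
  | succ k ih =>
    intro i l h
    cases l with
    | nil => simp [Good]
    | cons x xs =>
      rw [List.drop_succ_cons]
      have := ih (i - 1) xs h.2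
      rwa [show i - 1 - k = i - (k + 1) by omega] at this

lemma Good.head {P : ℕ → ℕ → Prop} {i : ℕ} {l : List ℕ} (h : Good P i l) (hl : l ≠ []) :
    P i (l.headD 0) := by
  cases l with
  | nil => exact absurd rfl hl
  | cons x xs => exact h.1

lemma good_repl {P : ℕ → ℕ → Prop} (x : ℕ) : ∀ (k i : ℕ), k ≤ i → (∀ j, 1 ≤ j → j ≤ i → P j x) →
    Good P i (List.replicate k x) := by
  intro k
  induction k with
  | zero => intro i _ _; simp [Good]
  | succ k ih =>
    intro i hk h
    rw [List.replicate_succ]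
    exact ⟨h i (by omega) le_rfl, ih (i - 1) (by omega) fun j h1 h2 => h j h1 (by omega)⟩

lemma lowGo_length : ∀ (j a : ℕ) (us : List ℕ), us.length = j → (lowGo j a us).length = j + 16 := by
  intro j
  induction j with
  | zero => intro a us _; simp [lowGo]
  | succ j ih =>
    intro a us h
    cases us with
    | nil => simp at h
    | cons u us =>
      rw [List.length_cons] at h
      unfold lowGo
      split
      · rw [List.length_cons, ih _ _ (by omega)]
      · rw [List.length_cons, ih _ _ (by omega)]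

lemma upGo_length : ∀ (j u : ℕ) (as : List ℕ), as.length = j → (upGo j u as).length = j + 16 := by
  intro j
  induction j with
  | zero => intro a us _; simp [upGo]
  | succ j ih =>
    intro u as h
    cases as with
    | nil => simp at h
    | cons a as =>
      rw [List.length_cons] at h
      unfold upGo
      split
      · rw [List.length_cons, ih _ _ (by omega)]
      · rw [List.length_cons, ih _ _ (by omega)]

lemma lowGo_good {m : ℕ} (hm : m ≠ 0) : ∀ (j a : ℕ) (us : List ℕ), us.length = j → PL m (j + 17) a →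
    Good (PU m) j us → Good (PL m) (j + 16) (lowGo j a us) := by
  intro j
  induction j with
  | zero =>
    intro a us _ _ _
    unfold lowGo
    exact good_repl 0 16 16 le_rfl fun j _ _ => PL_zero m j
  | succ j ih =>
    intro a us h ha hg
    cases us with
    | nil => simp at h
    | cons u us =>
      rw [List.length_cons] at h
      have h1 := PL_step hm (j := j) (a := a) (u := u) ha hg.1
      have h2 : Good (PU m) j us := hg.2
      unfold lowGo
      split
      · rename_i h3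
        rw [h3] at h1
        exact ⟨h1, ih 0 us (by omega) h1 h2⟩
      · rename_i n h3
        rw [h3] at h1
        exact ⟨h1, ih (n + 1) us (by omega) h1 h2⟩

lemma upGo_good {m : ℕ} (hm : m ≠ 0) : ∀ (j u : ℕ) (as : List ℕ), as.length = j → PU m (j + 17) u →
    Good (PL m) j as → Good (PU m) (j + 16) (upGo j u as) := by
  intro j
  induction j with
  | zero =>
    intro u as _ hu _
    unfold upGo
    have key : ∀ k : ℕ, k ≤ 16 → PU m (17 - k) u := by
      intro k
      induction k with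
      | zero => intro _; exact hu
      | succ k ih =>
        intro hk
        apply PU_anti hm (by omega)
        rw [show 17 - (k + 1) + 1 = 17 - k by omega]
        exact ih (by omega)
    refine good_repl u 16 16 le_rfl fun j h1 h2 => ?_
    have := key (17 - j) (by omega)
    rwa [show 17 - (17 - j) = j by omega] at this
  | succ j ih =>
    intro u as h hu hg
    cases as with
    | nil => simp at h
    | cons a as =>
      rw [List.length_cons] at h
      have h1 := PU_step hm (j := j) (a := a) (u := u) hu hg.1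
      have h2 : Good (PL m) j as := hg.2
      unfold upGo
      split
      · rename_i h3
        rw [h3] at h1
        exact ⟨h1, ih 0 as (by omega) h1 h2⟩
      · rename_i n h3
        rw [h3] at h1
        exact ⟨h1, ih (n + 1) as (by omega) h1 h2⟩

lemma PL_start {m : ℕ} (hm : m ≠ 0) (h2m : 2 ∣ m) : PL m 256 a0 := by
  unfold PL
  have h := start_lower m hm h2m
  have e1 : (((256 : ℕ) : ℝ) / 16) = 16 := by norm_num
  have e2 : (16 * ((a0 : ℕ) : ℝ) / (10 ^ 9 * ((256 : ℕ) : ℝ))) = 9996 / 10000 := by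
    unfold a0; norm_num
  rw [e1, e2]
  exact h

lemma PU_start {m : ℕ} : PU m 256 u0 := by
  unfold PU
  have h := start_upper m
  have e1 : (((256 : ℕ) : ℝ) / 16) = 16 := by norm_num
  have e2 : (16 * ((u0 : ℕ) : ℝ) / (10 ^ 9 * ((256 : ℕ) : ℝ))) = 10004 / 10000 := by
    unfold u0; norm_num
  rw [e1, e2]
  exact h

lemma iterU_good {m : ℕ} (hm : m ≠ 0) (h2m : 2 ∣ m) (k : ℕ) :
    (iterU k).length = 255 ∧ Good (PU m) 255 (iterU k) := by
  induction k with
  | zero =>
    refine ⟨List.length_replicate, ?_⟩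
    unfold iterU
    have key : ∀ k : ℕ, k ≤ 255 → PU m (256 - k) u0 := by
      intro k
      induction k with
      | zero => intro _; exact PU_start
      | succ k ih =>
        intro hk
        apply PU_anti hm (by omega)
        rw [show 256 - (k + 1) + 1 = 256 - k by omega]
        exact ih (by omega)
    refine good_repl u0 255 255 le_rfl fun j h1 h2 => ?_
    have := key (256 - j) (by omega)
    rwa [show 256 - (256 - j) = j by omega] at this
  | succ k ih =>
    unfold iterU stepU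
    have h1 : ((iterU k).drop 16).length = 239 := by rw [List.length_drop, ih.1]
    have h2 : Good (PU m) 239 ((iterU k).drop 16) := Good.drop 16 255 _ ih.2
    have h3 := lowGo_length 239 a0 _ h1
    have h4 := lowGo_good hm 239 a0 _ h1 (PL_start hm h2m) h2
    have h5 : ((lowGo 239 a0 ((iterU k).drop 16)).drop 16).length = 239 := by
      rw [List.length_drop, h3]
    have h6 : Good (PL m) 239 ((lowGo 239 a0 ((iterU k).drop 16)).drop 16) := Good.drop 16 255 _ h4
    exact ⟨upGo_length 239 u0 _ h5, upGo_good hm 239 u0 _ h5 PU_start h6⟩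

lemma getI_good {P : ℕ → ℕ → Prop} {l : List ℕ} (hl : l.length = 255) (h : Good P 255 l) {i : ℕ}
    (h1 : 1 ≤ i) (h2 : i ≤ 255) : P i (getI l i) := by
  unfold getI
  have h3 := Good.drop (255 - i) 255 l h
  rw [show 255 - (255 - i) = i by omega] at h3
  apply h3.head
  intro h4
  have h5 := congrArg List.length h4
  rw [List.length_drop, hl] at h5
  simp at h5
  omega

lemma list_sum_range (f : ℕ → ℕ) (n : ℕ) : ((List.range n).map f).sum = ∑ k ∈ range n, f k := by
  induction n with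
  | zero => simp
  | succ n ih => rw [List.range_succ, List.map_append, List.sum_append, ih, sum_range_succ]; simp

/-- the weights -/
noncomputable def ww (k : ℕ) : ℝ := (1 / ((k : ℝ) + 17) + 1 / ((k : ℝ) + 16)) / 2 - 1 / 86

lemma Tterm_ge (U : List ℕ) {k : ℕ} (hk : k < 70) :
    16 * (getI U (71 - k) : ℝ) / (10 ^ 9 * ((71 - k : ℕ) : ℝ)) * ww k ≤ (Tterm U k : ℝ) / 10 ^ 9 := by
  unfold Tterm ww
  simp only
  rw [show 88 - (k + 17) = 71 - k by omega]
  generalize getI U (71 - k) = g
  obtain ⟨j, hj⟩ : ∃ j, 71 - k = j := ⟨_, rfl⟩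
  have hjk : (k : ℝ) = 71 - j := by
    have : k + j = 71 := by omega
    have : (k : ℝ) + j = 71 := by exact_mod_cast this
    linarith
  have hj1 : 1 ≤ j := by omega
  rw [hj]
  -- numerator and denominator
  set M : ℕ := j * (2 * (k + 17) * (k + 17 - 1)) * 86 with hM
  have hM0 : 0 < M := by
    rw [hM]
    have : 0 < k + 17 - 1 := by omega
    positivity
  set A : ℕ := 16 * g * (86 * (2 * (k + 17) - 1) - 2 * (k + 17) * (k + 17 - 1)) with hA
  have hceil : (A : ℝ) / M ≤ (((A + (M - 1)) / M : ℕ) : ℝ) := by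
    rw [div_le_iff₀ (by exact_mod_cast hM0)]
    have h3 := Nat.div_add_mod (A + (M - 1)) M
    have h4 := Nat.mod_lt (A + (M - 1)) hM0
    have h5 : A ≤ (A + (M - 1)) / M * M := by
      rw [mul_comm]
      omega
    exact_mod_cast h5
  have hAr : (A : ℝ) = 16 * g * (86 * (2 * (k + 17) - 1) - 2 * (k + 17) * (k + 16)) := by
    rw [hA]
    have h6 : 2 * (k + 17) * (k + 17 - 1) ≤ 86 * (2 * (k + 17) - 1) := by
      obtain ⟨r, hr⟩ : ∃ r, 69 = k + r := ⟨69 - k, by omega⟩
      have e1 : k + 17 - 1 = k + 16 := by omega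
      have e2 : 2 * (k + 17) - 1 = 2 * k + 33 := by omega
      have e3 : 86 = k + r + 17 := by omega
      rw [e1, e2, e3]
      nlinarith [Nat.zero_le (k * r), Nat.zero_le r, Nat.zero_le k]
    rw [Nat.cast_mul, Nat.cast_sub h6]
    have h8 : ((k + 17 - 1 : ℕ) : ℝ) = k + 16 := by
      rw [show k + 17 - 1 = k + 16 by omega]; push_cast; ring
    have h9 : ((2 * (k + 17) - 1 : ℕ) : ℝ) = 2 * (k + 17) - 1 := by
      rw [Nat.cast_sub (by omega)]; push_cast; ring
    push_cast [h8, h9]
    ring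
  have hMr : (M : ℝ) = j * (2 * (k + 17) * (k + 16)) * 86 := by
    rw [hM]
    have h8 : ((k + 17 - 1 : ℕ) : ℝ) = k + 16 := by
      rw [show k + 17 - 1 = k + 16 by omega]; push_cast; ring
    push_cast [h8]
    ring
  have hk0 : (0 : ℝ) ≤ k := Nat.cast_nonneg _
  have hj0 : (0 : ℝ) < j := by exact_mod_cast hj1
  have e : 16 * (g : ℝ) / (10 ^ 9 * (j : ℝ)) * ((1 / ((k : ℝ) + 17) + 1 / ((k : ℝ) + 16)) / 2 - 1 / 86) =
      (A : ℝ) / M / 10 ^ 9 := by
    rw [hAr, hMr]
    field_simp
    ring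
  rw [e]
  apply div_le_div_of_nonneg_right hceil (by positivity)

/-- the final constants -/
theorem final_consts (m : ℕ) (hm : m ≠ 0) (h2m : 2 ∣ m) : ∃ c : ℕ → ℝ,
    (∀ k < 70, 0 ≤ c k ∧ UA m (((71 - k : ℕ) : ℝ) / 16) (c k)) ∧ LA m (88 / 16) (994 / 1000) ∧
    ∑ k ∈ range 70, c k * ww k ≤ 1174 / 1000 := by
  refine ⟨fun k => 16 * (getI finU (71 - k) : ℝ) / (10 ^ 9 * ((71 - k : ℕ) : ℝ)), ?_, ?_, ?_⟩
  · intro k hk
    refine ⟨by positivity, ?_⟩
    have h := iterU_good hm h2m 10
    have h1 := getI_good (P := PU m) h.1 h.2 (i := 71 - k) (by omega) (by omega)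
    exact h1
  · have h := iterU_good hm h2m 9
    have h1 : ((iterU 9).drop 16).length = 239 := by rw [List.length_drop, h.1]
    have h2 : Good (PU m) 239 ((iterU 9).drop 16) := Good.drop 16 255 _ h.2
    have h3 := lowGo_length 239 a0 _ h1
    have h4 := lowGo_good hm 239 a0 _ h1 (PL_start hm h2m) h2
    have h5 : PL m 88 (getI finL 88) := getI_good h3 h4 (by norm_num) (by norm_num)
    unfold PL at h5
    have h6 : LA m (88 / 16) (16 * (getI finL 88 : ℝ) / (10 ^ 9 * ((88 : ℕ) : ℝ))) := by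
      exact_mod_cast h5
    refine h6.mono ?_
    rw [le_div_iff₀ (by norm_num)]
    have h7 : (994 * 88 * 1000000 : ℝ) ≤ getI finL 88 * 16 := by exact_mod_cast chk.1
    push_cast
    linarith
  · calc ∑ k ∈ range 70, 16 * (getI finU (71 - k) : ℝ) / (10 ^ 9 * ((71 - k : ℕ) : ℝ)) * ww k
        ≤ ∑ k ∈ range 70, (Tterm finU k : ℝ) / 10 ^ 9 :=
          sum_le_sum fun k hk => Tterm_ge finU (mem_range.1 hk)
      _ = (Tsum finU : ℝ) / 10 ^ 9 := by
          unfold Tsum
          rw [list_sum_range, ← sum_div]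
          push_cast
          rfl
      _ ≤ (1174 * 1000000 : ℝ) / 10 ^ 9 := by
          apply div_le_div_of_nonneg_right _ (by positivity)
          exact_mod_cast chk.2
      _ = 1174 / 1000 := by norm_num

end Pool.Agent.W89.Sv
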