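import Mathlib
import Pool.Agent.W89.Sv.Iter

/-! # The weighted sieve -/

set_option autoImplicit false

namespace Pool.Agent.W89.Sv

open Finset Filter Topology

lemma log_le_sinh {x : ℝ} (hx : 1 ≤ x) : Real.log x ≤ (x - 1 / x) / 2 := by
  have h0 : 0 < x := by linarith
  have h1 : Real.log x ≤ Real.sinh (Real.log x) := Real.self_le_sinh_iff.2 (Real.log_nonneg hx)
  rw [Real.sinh_eq, Real.exp_log h0, Real.exp_neg, Real.exp_log h0] at h1
  rw [one_div]
  exact h1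

lemma ww_ge (k : ℕ) : Real.log ((((k : ℝ) + 17) / 88) / (((k : ℝ) + 16) / 88)) -
    (((k : ℝ) + 17) / 88 - ((k : ℝ) + 16) / 88) / (86 / 88) ≤ ww k := by
  have hk : (0 : ℝ) ≤ k := Nat.cast_nonneg _
  have e : (((k : ℝ) + 17) / 88) / (((k : ℝ) + 16) / 88) = ((k : ℝ) + 17) / ((k : ℝ) + 16) := by
    field_simp
  rw [e]
  have h1 : 1 ≤ ((k : ℝ) + 17) / ((k : ℝ) + 16) := by
    rw [one_le_div (by linarith)]
    linarith
  have h2 := log_le_sinh h1
  unfold ww
  have e2 : (((k : ℝ) + 17) / ((k : ℝ) + 16) - 1 / (((k : ℝ) + 17) / ((k : ℝ) + 16))) / 2 =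
      (1 / ((k : ℝ) + 17) + 1 / ((k : ℝ) + 16)) / 2 := by
    field_simp
    ring
  rw [e2] at h2
  have e3 : (((k : ℝ) + 17) / 88 - ((k : ℝ) + 16) / 88) / (86 / 88) = 1 / 86 := by ring
  rw [e3]
  linarith

/-- the primes of one range -/
noncomputable def Ik (m : ℕ) (D : ℝ) (k : ℕ) : Finset ℕ :=
  (PP m ⌈D ^ (((k : ℝ) + 17) / 88)⌉₊).filter (fun p : ℕ => D ^ (((k : ℝ) + 16) / 88) ≤ p)

/-- the primes up to `D ^ ((16 + n) / 88)` -/
noncomputable def En (m z : ℕ) (D : ℝ) (n : ℕ) : Finset ℕ :=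
  (PP m ⌈D ^ (((n : ℝ) + 16) / 88)⌉₊).filter (fun p : ℕ => z ≤ p)

lemma En_sum {m z : ℕ} {D : ℝ} (hD : 1 ≤ D) (hz : D ^ ((16 : ℝ) / 88) = z) (g : ℕ → ℝ) (n : ℕ) :
    ∑ p ∈ En m z D n, g p = ∑ k ∈ range n, ∑ p ∈ Ik m D k, g p := by
  induction n with
  | zero =>
    rw [range_zero, sum_empty]
    apply sum_eq_zero
    intro p hp
    exfalso
    unfold En at hp
    rw [mem_filter, mem_PP, Nat.lt_ceil] at hp
    push_cast at hp
    rw [zero_add, hz] at hp
    have h1 : p < z := by exact_mod_cast hp.1.1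
    omega
  | succ n ih =>
    rw [sum_range_succ, ← ih]
    have hle : ∀ a b : ℝ, a ≤ b → D ^ a ≤ D ^ b := fun a b h => Real.rpow_le_rpow_of_exponent_le hD h
    have hdis : Disjoint (En m z D n) (Ik m D n) := by
      rw [disjoint_left]
      intro p hp hp'
      unfold En at hp
      unfold Ik at hp'
      rw [mem_filter, mem_PP, Nat.lt_ceil] at hp
      rw [mem_filter] at hp'
      linarith [hp.1.1, hp'.2]
    rw [← sum_union hdis]
    congr 1
    ext p
    rw [mem_union]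
    unfold En Ik
    rw [mem_filter, mem_filter, mem_filter, mem_PP, mem_PP, mem_PP, Nat.lt_ceil, Nat.lt_ceil, Nat.lt_ceil]
    have e1 : (((n + 1 : ℕ) : ℝ) + 16) / 88 = ((n : ℝ) + 17) / 88 := by push_cast; ring
    rw [e1]
    have h1 : D ^ (((n : ℝ) + 16) / 88) ≤ D ^ (((n : ℝ) + 17) / 88) := hle _ _ (by linarith)
    have h2 : (z : ℝ) ≤ D ^ (((n : ℝ) + 16) / 88) := by
      rw [← hz]
      apply hle
      have : (0 : ℝ) ≤ n := Nat.cast_nonneg _
      linarith
    constructor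
    · rintro ⟨⟨h3, h4, h5⟩, h6⟩
      rcases lt_or_ge (p : ℝ) (D ^ (((n : ℝ) + 16) / 88)) with h7 | h7
      · exact Or.inl ⟨⟨h7, h4, h5⟩, h6⟩
      · exact Or.inr ⟨⟨h3, h4, h5⟩, h7⟩
    · rintro (⟨⟨h3, h4, h5⟩, h6⟩ | ⟨⟨h3, h4, h5⟩, h6⟩)
      · exact ⟨⟨h3.trans_le h1, h4, h5⟩, h6⟩
      · refine ⟨⟨h3, h4, h5⟩, ?_⟩
        have : (z : ℝ) ≤ p := h2.trans h6
        exact_mod_cast this

/-- upper bound for the weighted sum -/
theorem weighted_upper (m : ℕ) (hm : m ≠ 0) (h2m : 2 ∣ m) : ∀ ε : ℝ, 0 < ε → ∃ z0 : ℕ, ∀ z : ℕ, z0 ≤ z →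
    ∀ (ι : Type) (S : Finset ι) (v : ι → ℕ) (X : ℝ), 0 ≤ X →
    ∑ p ∈ En m z ((z : ℝ) ^ (11 / 2 : ℝ)) 70,
      (1 - Real.log p / (86 / 88 * Real.log ((z : ℝ) ^ (11 / 2 : ℝ)))) * sift m S v p z ≤
      (1174 / 1000 + ε) * (X * VZ m z) +
      ∑ p ∈ En m z ((z : ℝ) ^ (11 / 2 : ℝ)) 70, RR m S v X p z ((z : ℝ) ^ (11 / 2 : ℝ) / p) := by
  intro ε hε
  obtain ⟨c, hc, -, hsum⟩ := final_consts m hm h2m
  -- choice of the small number
  set B : ℝ := ∑ k ∈ range 70, (|c k| + |ww k| + 1) with hB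
  have hB0 : 0 < B := by
    rw [hB]
    apply sum_pos
    · intro k _
      have := abs_nonneg (c k)
      have := abs_nonneg (ww k)
      linarith
    · exact ⟨0, by simp⟩
  set e1 : ℝ := min 1 (ε / B) with he1
  have he10 : 0 < e1 := lt_min one_pos (by positivity)
  have he11 : e1 ≤ 1 := min_le_left _ _
  have he12 : e1 * B ≤ ε := by
    calc e1 * B ≤ ε / B * B := mul_le_mul_of_nonneg_right (min_le_right _ _) hB0.le
      _ = ε := div_mul_cancel₀ _ hB0.ne'
  -- the sieve constants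
  have hA : ∃ z1 : ℕ, ∀ k < 70, ∀ z : ℕ, z1 ≤ z → ∀ D : ℝ, (z : ℝ) ^ (((71 - k : ℕ) : ℝ) / 16) ≤ D →
      ∀ (ι : Type) (S : Finset ι) (v : ι → ℕ) (X : ℝ), 0 ≤ X → ∀ d : ℕ, 0 < d → d.Coprime (PZ m z) →
      sift m S v d z ≤ (c k + e1) * (X / d * VZ m z) + RR m S v X d z D := by
    have h1 : ∀ k : ℕ, ∃ z1 : ℕ, k < 70 → ∀ z : ℕ, z1 ≤ z → ∀ D : ℝ,
        (z : ℝ) ^ (((71 - k : ℕ) : ℝ) / 16) ≤ D →
        ∀ (ι : Type) (S : Finset ι) (v : ι → ℕ) (X : ℝ), 0 ≤ X → ∀ d : ℕ, 0 < d → d.Coprime (PZ m z) →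
        sift m S v d z ≤ (c k + e1) * (X / d * VZ m z) + RR m S v X d z D := by
      intro k
      by_cases hk : k < 70
      · obtain ⟨z1, hz1⟩ := (hc k hk).2 e1 he10
        exact ⟨z1, fun _ => hz1⟩
      · exact ⟨0, fun h => absurd h hk⟩
    choose f hf using h1
    refine ⟨(range 70).sup f, fun k hk z hz => hf k hk z (le_trans ?_ hz)⟩
    exact Finset.le_sup (f := f) (mem_range.2 hk)
  obtain ⟨z1, hz1⟩ := hA
  -- Mertens
  have hD : Tendsto (fun z : ℕ => (z : ℝ) ^ (11 / 2 : ℝ)) atTop atTop :=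
    (tendsto_rpow_atTop (by norm_num)).comp (tendsto_natCast_atTop_atTop (R := ℝ))
  have hM : ∀ᶠ z : ℕ in atTop, ∀ k ∈ range 70, ∑ p ∈ Ik m ((z : ℝ) ^ (11 / 2 : ℝ)) k,
      (1 - Real.log p / (86 / 88 * Real.log ((z : ℝ) ^ (11 / 2 : ℝ)))) / p ≤ ww k + e1 := by
    rw [eventually_all_finset]
    intro k _
    have hk : (0 : ℝ) ≤ k := Nat.cast_nonneg _
    have h1 := (mertens_int m hm (((k : ℝ) + 16) / 88) (((k : ℝ) + 17) / 88) (86 / 88) (by positivity)
      (by linarith) (by norm_num)).comp hD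
    have h2 := h1.eventually (gt_mem_nhds (lt_of_le_of_lt (ww_ge k) (lt_add_of_pos_right _ he10)))
    filter_upwards [h2] with z hz
    exact hz.le
  obtain ⟨z2, hz2⟩ := eventually_atTop.1 (hM.and (eventually_ge_atTop 2))
  refine ⟨max z1 z2, fun z hz ι S v X hX => ?_⟩
  obtain ⟨hz3, hz4⟩ := hz2 z ((le_max_right _ _).trans hz)
  have hz5 : z1 ≤ z := (le_max_left _ _).trans hz
  have hzR : (2 : ℝ) ≤ z := by exact_mod_cast hz4
  set D : ℝ := (z : ℝ) ^ (11 / 2 : ℝ) with hDd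
  have hz0 : (0 : ℝ) ≤ z := Nat.cast_nonneg _
  have hD1 : 1 ≤ D := Real.one_le_rpow (by linarith) (by norm_num)
  have hD0 : 0 < D := by linarith
  have hDz : D ^ ((16 : ℝ) / 88) = z := by
    rw [hDd, ← Real.rpow_mul hz0]
    norm_num
  have hlogD : 0 < Real.log D := by
    rw [hDd, Real.log_rpow (by linarith)]
    have := Real.log_pos (by linarith : (1 : ℝ) < z)
    positivity
  have hVz := VZ_pos m z
  rw [En_sum hD1 hDz, En_sum hD1 hDz]
  have key : ∀ k ∈ range 70, ∑ p ∈ Ik m D k, (1 - Real.log p / (86 / 88 * Real.log D)) * sift m S v p z ≤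
      (c k + e1) * (ww k + e1) * (X * VZ m z) + ∑ p ∈ Ik m D k, RR m S v X p z (D / p) := by
    intro k hk
    have hk70 := mem_range.1 hk
    have hk0 : (0 : ℝ) ≤ k := Nat.cast_nonneg _
    have hk69 : (k : ℝ) ≤ 69 := by exact_mod_cast (by omega : k ≤ 69)
    have hcast : ((71 - k : ℕ) : ℝ) = 71 - k := by rw [Nat.cast_sub (by omega)]; norm_num
    have hpp : ∀ p ∈ Ik m D k, (1 - Real.log p / (86 / 88 * Real.log D)) * sift m S v p z ≤
        (c k + e1) * (X * VZ m z) * ((1 - Real.log p / (86 / 88 * Real.log D)) / p) +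
        RR m S v X p z (D / p) := by
      intro p hp
      unfold Ik at hp
      rw [mem_filter, mem_PP, Nat.lt_ceil] at hp
      obtain ⟨⟨h1, hpp, hpm⟩, h2⟩ := hp
      have hp0 : (0 : ℝ) < p := by exact_mod_cast hpp.pos
      have hzp : z ≤ p := by
        have : (z : ℝ) ≤ p := by
          refine le_trans ?_ h2
          rw [← hDz]
          exact Real.rpow_le_rpow_of_exponent_le hD1 (by linarith)
        exact_mod_cast this
      have h3 : (z : ℝ) ^ (((71 - k : ℕ) : ℝ) / 16) ≤ D / p := by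
        rw [le_div_iff₀ hp0, hcast]
        calc (z : ℝ) ^ ((71 - (k : ℝ)) / 16) * p ≤ D ^ ((71 - (k : ℝ)) / 88) * D ^ (((k : ℝ) + 17) / 88) := by
              have e : (z : ℝ) ^ ((71 - (k : ℝ)) / 16) = D ^ ((71 - (k : ℝ)) / 88) := by
                rw [hDd, ← Real.rpow_mul hz0]
                congr 1
                ring
              rw [e]
              exact mul_le_mul_of_nonneg_left h1.le (by positivity)
          _ = D := by
              rw [← Real.rpow_add hD0]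
              have : (71 - (k : ℝ)) / 88 + ((k : ℝ) + 17) / 88 = 1 := by ring
              rw [this, Real.rpow_one]
      have h4 : p.Coprime (PZ m z) := by
        rw [hpp.coprime_iff_not_dvd]
        intro h
        have := (prime_dvd_PZ hpp h).1
        omega
      have h5 := hz1 k hk70 z hz5 (D / p) h3 ι S v X hX p hpp.pos h4
      have h6 : 0 ≤ 1 - Real.log p / (86 / 88 * Real.log D) := by
        rw [sub_nonneg, div_le_one (by positivity)]
        have h7 : Real.log p ≤ Real.log (D ^ (((k : ℝ) + 17) / 88)) := Real.log_le_log hp0 h1.le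
        rw [Real.log_rpow hD0] at h7
        have h8 : ((k : ℝ) + 17) / 88 * Real.log D ≤ 86 / 88 * Real.log D :=
          mul_le_mul_of_nonneg_right (by linarith) hlogD.le
        linarith
      have h7 : 1 - Real.log p / (86 / 88 * Real.log D) ≤ 1 := by
        have : 0 ≤ Real.log p / (86 / 88 * Real.log D) :=
          div_nonneg (Real.log_natCast_nonneg p) (by positivity)
        linarith
      have h8 := RR_nonneg m S v X p z (D / p)
      calc (1 - Real.log p / (86 / 88 * Real.log D)) * sift m S v p z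
          ≤ (1 - Real.log p / (86 / 88 * Real.log D)) * ((c k + e1) * (X / p * VZ m z) +
            RR m S v X p z (D / p)) := mul_le_mul_of_nonneg_left h5 h6
        _ = (c k + e1) * (X * VZ m z) * ((1 - Real.log p / (86 / 88 * Real.log D)) / p) +
            (1 - Real.log p / (86 / 88 * Real.log D)) * RR m S v X p z (D / p) := by ring
        _ ≤ _ := by
            have := mul_le_mul_of_nonneg_right h7 h8
            linarith
    refine (sum_le_sum hpp).trans ?_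
    rw [sum_add_distrib, ← mul_sum]
    have h1 := hz3 k hk
    have h2 : 0 ≤ (c k + e1) * (X * VZ m z) := by
      have := (hc k hk70).1
      positivity
    have h3 := mul_le_mul_of_nonneg_left h1 h2
    have h4 : (c k + e1) * (X * VZ m z) * (ww k + e1) = (c k + e1) * (ww k + e1) * (X * VZ m z) := by ring
    rw [h4] at h3
    linarith
  refine (sum_le_sum key).trans ?_
  rw [sum_add_distrib, ← sum_mul]
  have h1 : ∑ k ∈ range 70, (c k + e1) * (ww k + e1) ≤ 1174 / 1000 + ε := by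
    have h2 : ∀ k ∈ range 70, (c k + e1) * (ww k + e1) ≤ c k * ww k + e1 * (|c k| + |ww k| + 1) := by
      intro k _
      have h3 := mul_le_mul_of_nonneg_left (le_abs_self (c k)) he10.le
      have h4 := mul_le_mul_of_nonneg_left (le_abs_self (ww k)) he10.le
      nlinarith
    have h3 := sum_le_sum h2
    rw [sum_add_distrib, ← mul_sum] at h3
    linarith
  have h2 : 0 ≤ X * VZ m z := by positivity
  have h3 := mul_le_mul_of_nonneg_right h1 h2
  linarith

/-- the total remainder -/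
theorem total_rem (m z : ℕ) {D : ℝ} (hD : 1 ≤ D) {ι : Type} (S : Finset ι) (v : ι → ℕ) (X : ℝ) (y : ℕ) :
    RR m S v X 1 z D + ∑ p ∈ (PP m y).filter (fun p => z ≤ p), RR m S v X p z (D / p) ≤
      ∑ q ∈ (Icc 1 ⌊D⌋₊).filter (fun q => q.Coprime m), (q.divisors.card : ℝ) ^ 2 * |rem S v X q| := by
  set F : ℕ → ℝ := fun q => (q.divisors.card : ℝ) ^ 2 * |rem S v X q| with hF
  have hF0 : ∀ q, 0 ≤ F q := fun q => by
    rw [hF]
    positivity
  set T : Finset (Σ _ : ℕ, ℕ) := ((PP m y).filter (fun p => z ≤ p)).sigma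
    (fun p => (PZ m z).divisors.filter (fun l : ℕ => (l : ℝ) ≤ D / p)) with hT
  have hmem : ∀ x ∈ T, ((x.1 < y ∧ x.1.Prime ∧ ¬ x.1 ∣ m) ∧ z ≤ x.1) ∧ x.2 ∣ PZ m z ∧ PZ m z ≠ 0 ∧
      (x.2 : ℝ) ≤ D / x.1 := by
    intro x hx
    rw [hT, mem_sigma, mem_filter, mem_filter, Nat.mem_divisors, mem_PP] at hx
    exact ⟨hx.1, hx.2.1.1, hx.2.1.2, hx.2.2⟩
  have hinj : Set.InjOn (fun x : Σ _ : ℕ, ℕ => x.1 * x.2) (T : Set (Σ _ : ℕ, ℕ)) := by
    rintro ⟨p, l⟩ hx ⟨p', l'⟩ hx' heq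
    have h1 := hmem _ hx
    have h2 := hmem _ hx'
    simp only at h1 h2 heq
    have h5 : p' = p := by
      have h3 : p' ∣ p * l := heq ▸ dvd_mul_right _ _
      rcases (h2.1.1.2.1.dvd_mul).1 h3 with h4 | h4
      · exact (Nat.prime_dvd_prime_iff_eq h2.1.1.2.1 h1.1.1.2.1).1 h4
      · have := (prime_dvd_PZ h2.1.1.2.1 (h4.trans h1.2.1)).1
        omega
    subst h5
    have h6 : l = l' := Nat.eq_of_mul_eq_mul_left h1.1.1.2.1.pos heq
    subst h6
    rfl
  have h1 : ∑ p ∈ (PP m y).filter (fun p => z ≤ p), RR m S v X p z (D / p) ≤ ∑ x ∈ T, F (x.1 * x.2) := by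
    rw [hT, sum_sigma]
    apply sum_le_sum
    intro p hp
    unfold RR
    apply sum_le_sum
    intro l hl
    rw [mem_filter, Nat.mem_divisors] at hl
    rw [mem_filter, mem_PP] at hp
    simp only [hF]
    apply mul_le_mul_of_nonneg_right _ (abs_nonneg _)
    have hl0 : l ≠ 0 := by
      rintro rfl
      exact hl.1.2 (Nat.eq_zero_of_zero_dvd hl.1.1)
    have h2 : l.divisors ⊆ (p * l).divisors :=
      Nat.divisors_subset_of_dvd (mul_ne_zero hp.1.2.1.ne_zero hl0) (dvd_mul_left _ _)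
    have h3 : (l.divisors.card : ℝ) ≤ ((p * l).divisors.card : ℝ) := by
      exact_mod_cast card_le_card h2
    gcongr
  have h2 : ∑ x ∈ T, F (x.1 * x.2) = ∑ q ∈ T.image (fun x : Σ _ : ℕ, ℕ => x.1 * x.2), F q := by
    rw [sum_image]
    exact hinj
  have h3 : RR m S v X 1 z D = ∑ q ∈ (PZ m z).divisors.filter (fun l : ℕ => (l : ℝ) ≤ D), F q := by
    unfold RR
    simp only [one_mul, hF]
  have h4 : Disjoint ((PZ m z).divisors.filter (fun l : ℕ => (l : ℝ) ≤ D))
      (T.image (fun x : Σ _ : ℕ, ℕ => x.1 * x.2)) := by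
    rw [disjoint_left]
    intro q hq hq'
    rw [mem_filter, Nat.mem_divisors] at hq
    rw [mem_image] at hq'
    obtain ⟨x, hx, rfl⟩ := hq'
    have h5 := hmem x hx
    have h6 := (prime_dvd_PZ h5.1.1.2.1 ((dvd_mul_right _ _).trans hq.1.1)).1
    omega
  have hcopm : ∀ l : ℕ, l ∣ PZ m z → l.Coprime m := by
    intro l hl
    rw [Nat.coprime_iff_gcd_eq_one]
    by_contra hne
    obtain ⟨p, hp, hpg⟩ := Nat.exists_prime_and_dvd hne
    exact (prime_dvd_PZ hp ((hpg.trans (Nat.gcd_dvd_left _ _)).trans hl)).2 (hpg.trans (Nat.gcd_dvd_right _ _))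
  have h5 : (PZ m z).divisors.filter (fun l : ℕ => (l : ℝ) ≤ D) ∪ T.image (fun x : Σ _ : ℕ, ℕ => x.1 * x.2) ⊆
      (Icc 1 ⌊D⌋₊).filter (fun q => q.Coprime m) := by
    intro q hq
    rw [mem_union, mem_filter, mem_image] at hq
    rw [mem_filter, mem_Icc]
    rcases hq with ⟨h6, h7⟩ | ⟨x, hx, rfl⟩
    · exact ⟨⟨Nat.pos_of_mem_divisors h6, Nat.le_floor h7⟩, hcopm q (Nat.dvd_of_mem_divisors h6)⟩
    · have h6 := hmem x hx
      have hx0 : (0 : ℝ) < x.1 := by exact_mod_cast h6.1.1.2.1.pos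
      have hx2 : 0 < x.2 := by
        rcases Nat.eq_zero_or_pos x.2 with h7 | h7
        · exfalso
          rw [h7] at h6
          exact h6.2.2.1 (Nat.eq_zero_of_zero_dvd h6.2.1)
        · exact h7
      refine ⟨⟨Nat.mul_pos h6.1.1.2.1.pos hx2, ?_⟩, ?_⟩
      · apply Nat.le_floor
        have h7 := h6.2.2.2
        rw [le_div_iff₀ hx0] at h7
        push_cast
        linarith
      · apply Nat.Coprime.mul_left
        · exact (h6.1.1.2.1.coprime_iff_not_dvd).2 h6.1.1.2.2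
        · exact hcopm _ h6.2.1
  rw [h3]
  calc _ ≤ ∑ q ∈ (PZ m z).divisors.filter (fun l : ℕ => (l : ℝ) ≤ D), F q +
        ∑ q ∈ T.image (fun x : Σ _ : ℕ, ℕ => x.1 * x.2), F q := by
        rw [← h2]; linarith
    _ = ∑ q ∈ (PZ m z).divisors.filter (fun l : ℕ => (l : ℝ) ≤ D) ∪
          T.image (fun x : Σ _ : ℕ, ℕ => x.1 * x.2), F q := (sum_union h4).symm
    _ ≤ _ := sum_le_sum_of_subset_of_nonneg h5 fun q _ _ => hF0 q

/-- the weight of an integer -/
noncomputable def wt (m z : ℕ) (lam : ℝ) (n : ℕ) : ℝ :=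
  1 - lam * ∑ p ∈ (En m z ((z : ℝ) ^ (11 / 2 : ℝ)) 70).filter (fun p => p ∣ n),
    (1 - Real.log p / (86 / 88 * Real.log ((z : ℝ) ^ (11 / 2 : ℝ))))

/-- the weighted sieve -/
theorem weighted_sieve (m : ℕ) (hm : m ≠ 0) (h2m : 2 ∣ m) {lam : ℝ} (hl0 : 0 ≤ lam) (hl1 : lam ≤ 1)
    (hlam : lam * (1174 / 1000) < 994 / 1000) : ∃ δ : ℝ, 0 < δ ∧ ∃ z0 : ℕ, ∀ z : ℕ, z0 ≤ z →
    ∀ (ι : Type) (S : Finset ι) (v : ι → ℕ) (X : ℝ), 0 ≤ X →
    δ * (X * VZ m z) - ∑ q ∈ (Icc 1 ⌊(z : ℝ) ^ (11 / 2 : ℝ)⌋₊).filter (fun q => q.Coprime m),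
      (q.divisors.card : ℝ) ^ 2 * |rem S v X q| ≤
      ∑ i ∈ S.filter (fun i => (v i).Coprime (PZ m z)), wt m z lam (v i) := by
  set δ : ℝ := (994 / 1000 - lam * (1174 / 1000)) / 3 with hδ
  have hδ0 : 0 < δ := by rw [hδ]; linarith
  obtain ⟨c, -, hL, -⟩ := final_consts m hm h2m
  obtain ⟨z1, hz1⟩ := hL δ hδ0
  obtain ⟨z2, hz2⟩ := weighted_upper m hm h2m δ hδ0
  refine ⟨δ, hδ0, max (max z1 z2) 2, fun z hz ι S v X hX => ?_⟩
  have hzz1 : z1 ≤ z := (le_max_left _ _).trans ((le_max_left _ _).trans hz)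
  have hzz2 : z2 ≤ z := (le_max_right _ _).trans ((le_max_left _ _).trans hz)
  have hz2' : 2 ≤ z := (le_max_right _ _).trans hz
  have hzR : (2 : ℝ) ≤ z := by exact_mod_cast hz2'
  have hU := hz2 z hzz2 ι S v X hX
  set D : ℝ := (z : ℝ) ^ (11 / 2 : ℝ) with hDd
  have hD1 : 1 ≤ D := Real.one_le_rpow (by linarith) (by norm_num)
  have hLo := hz1 z hzz1 D (by
    rw [hDd]
    norm_num) ι S v X hX 1 one_pos (Nat.coprime_one_left _)
  have hrem : RR m S v X 1 z D + ∑ p ∈ En m z D 70, RR m S v X p z (D / p) ≤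
      ∑ q ∈ (Icc 1 ⌊D⌋₊).filter (fun q => q.Coprime m), (q.divisors.card : ℝ) ^ 2 * |rem S v X q| :=
    total_rem m z hD1 S v X _
  have hV := VZ_pos m z
  -- exchange of the sums
  have hex : ∑ i ∈ S.filter (fun i => (v i).Coprime (PZ m z)), wt m z lam (v i) =
      sift m S v 1 z - lam * ∑ p ∈ En m z D 70, (1 - Real.log p / (86 / 88 * Real.log D)) * sift m S v p z := by
    unfold wt
    rw [← hDd, sum_sub_distrib, ← mul_sum]
    congr 1
    · unfold sift
      simp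
    · congr 1
      simp_rw [sum_filter (fun p => p ∣ v _)]
      rw [sum_comm]
      apply sum_congr rfl
      intro p _
      rw [← sum_filter, sum_const, nsmul_eq_mul, mul_comm]
      congr 1
      unfold sift
      rw [filter_filter]
      congr 2
      ext i
      simp only [mem_filter]
      tauto
  rw [hex]
  have h1 : X / ((1 : ℕ) : ℝ) * VZ m z = X * VZ m z := by simp
  rw [h1] at hLo
  have h2 := mul_le_mul_of_nonneg_left hU hl0
  have h3 : 0 ≤ ∑ p ∈ En m z D 70, RR m S v X p z (D / p) := sum_nonneg fun p _ => RR_nonneg m S v X p z _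
  have h4 : lam * ∑ p ∈ En m z D 70, RR m S v X p z (D / p) ≤ ∑ p ∈ En m z D 70, RR m S v X p z (D / p) := by
    have := mul_le_mul_of_nonneg_right hl1 h3
    linarith
  have h5 : 0 ≤ X * VZ m z := by positivity
  have h6 : δ * (X * VZ m z) ≤ (994 / 1000 - δ) * (X * VZ m z) -
      lam * ((1174 / 1000 + δ) * (X * VZ m z)) := by
    have h7 : δ ≤ (994 / 1000 - δ) - lam * (1174 / 1000 + δ) := by
      have h8 : lam * δ ≤ δ := by
        have := mul_le_mul_of_nonneg_right hl1 hδ0.le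
        linarith
      have h9 : 3 * δ = 994 / 1000 - lam * (1174 / 1000) := by rw [hδ]; ring
      linarith
    have h10 := mul_le_mul_of_nonneg_right h7 h5
    linarith
  linarith

end Pool.Agent.W89.Sv
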